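import Pool.Agent.H94.LP7.GD.VT.Exf
import Pool.Agent.H94.LP7.M25

/-!
# General d, block BETA, module Box: densities near the natural ones

At the natural densities `κ S = #S ! * kap #S` without the units (`κ Tᶜ = 0`, `T = tb J e`) the values are
`FF κ I = #I ! * gg kap #I + (if Tᶜ ⊆ I) e ! * kap e * #(I \ Tᶜ) ! * gg kap #(I \ Tᶜ)` (`FR_nat` and `FR_mod`
for the units), positive for all `I`: `gg kap D > 0` for `D < d`, `gg kap d = 0`.  `box` is the
continuity of the finitely many polynomials `FR · I` (`FR_lip`); `kap 1 = 0`, `kap x = 0` for `x > e`.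
`dens`: take `θ` of `box`, `E` so small that `3 * d ! * E ≤ θ` and `4 * d ! * E ≤ x ! * kap x` for all `x` with
`kap x ≠ 0`, and rational `kl x`, `kh x` in the corresponding intervals.
-/

set_option autoImplicit false

namespace Pool.Agent.GD.BE

open Finset
open Pool.Agent.GD.VT (FR_nat FR_insert FR_empty FR_congr)

private theorem prod_lip {α : Type} [DecidableEq α] (a b : α → ℝ) (B t : ℝ) (hB : 1 ≤ B) (P : Finset α)
    (ha : ∀ S ∈ P, |a S| ≤ B) (hb : ∀ S ∈ P, |b S| ≤ B) (h : ∀ S ∈ P, |a S - b S| ≤ t) :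
    |∏ S ∈ P, a S - ∏ S ∈ P, b S| ≤ P.card * B ^ P.card * t := by
  induction P using Finset.induction_on with
  | empty => simp
  | @insert s P hs ih =>
    have h1 := ih (fun S hS => ha S (mem_insert_of_mem hS)) (fun S hS => hb S (mem_insert_of_mem hS))
      (fun S hS => h S (mem_insert_of_mem hS))
    have h2 := ha s (mem_insert_self _ _)
    have h3 := h s (mem_insert_self _ _)
    have ht : 0 ≤ t := (abs_nonneg _).trans h3
    have h4 : |∏ S ∈ P, b S| ≤ B ^ P.card := by
      rw [abs_prod]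
      calc ∏ S ∈ P, |b S| ≤ ∏ _S ∈ P, B :=
            prod_le_prod (fun _ _ => abs_nonneg _) fun S hS => hb S (mem_insert_of_mem hS)
        _ = B ^ P.card := prod_const _
    rw [prod_insert hs, prod_insert hs, card_insert_of_notMem hs]
    have h5 : a s * ∏ S ∈ P, a S - b s * ∏ S ∈ P, b S =
        a s * (∏ S ∈ P, a S - ∏ S ∈ P, b S) + (a s - b s) * ∏ S ∈ P, b S := by ring
    rw [h5]
    have h6 : (0 : ℝ) ≤ B ^ P.card := by positivity
    calc |a s * (∏ S ∈ P, a S - ∏ S ∈ P, b S) + (a s - b s) * ∏ S ∈ P, b S|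
        ≤ |a s * (∏ S ∈ P, a S - ∏ S ∈ P, b S)| + |(a s - b s) * ∏ S ∈ P, b S| := abs_add_le _ _
      _ = |a s| * |∏ S ∈ P, a S - ∏ S ∈ P, b S| + |a s - b s| * |∏ S ∈ P, b S| := by
          rw [abs_mul, abs_mul]
      _ ≤ B * (P.card * B ^ P.card * t) + t * B ^ P.card := by
          refine add_le_add (mul_le_mul h2 h1 (abs_nonneg _) (by linarith))
            (mul_le_mul h3 h4 (abs_nonneg _) ht)
      _ ≤ ((P.card + 1 : ℕ) : ℝ) * B ^ (P.card + 1) * t := by
          have h7 : t * B ^ P.card ≤ B ^ P.card * t * B := by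
            have h8 : 0 ≤ t * B ^ P.card := mul_nonneg ht h6
            nlinarith
          push_cast
          rw [pow_succ]
          nlinarith

/-- `FR` is a Lipschitz function on bounded sets. -/
theorem FR_lip (ι : Type) [Fintype ι] [DecidableEq ι] (B : ℝ) : ∃ C : ℝ, 0 ≤ C ∧
    ∀ (κ κ' : Finset ι → ℝ) (t : ℝ), (∀ S, |κ S| ≤ B) → (∀ S, |κ' S| ≤ B) →
      (∀ S, S ≠ ∅ → |κ S - κ' S| ≤ t) → ∀ I, |FR κ I - FR κ' I| ≤ C * t := by
  refine ⟨∑ P ∈ Dj (univ : Finset ι), (P.card : ℝ) * (max B 1) ^ P.card,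
    sum_nonneg fun P _ => by positivity, ?_⟩
  intro κ κ' t h1 h2 h3 I
  have hD : Dj I ⊆ Dj (univ : Finset ι) := by
    intro P hP
    rw [mem_Dj] at hP ⊢
    exact ⟨fun S _ => subset_univ S, hP.2.1, hP.2.2⟩
  have hP : ∀ P ∈ Dj (univ : Finset ι), |∏ S ∈ P, -κ S - ∏ S ∈ P, -κ' S| ≤
      (P.card : ℝ) * (max B 1) ^ P.card * t := by
    intro P hP
    rw [mem_Dj] at hP
    refine prod_lip _ _ _ _ (le_max_right _ _) P (fun S _ => ?_) (fun S _ => ?_) fun S hS => ?_
    · rw [abs_neg]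
      exact (h1 S).trans (le_max_left _ _)
    · rw [abs_neg]
      exact (h2 S).trans (le_max_left _ _)
    · rw [show -κ S - -κ' S = -(κ S - κ' S) by ring, abs_neg]
      exact h3 S fun h => hP.2.1 (h ▸ hS)
  unfold FR
  rw [← sum_sub_distrib, sum_mul]
  calc |∑ P ∈ Dj I, (∏ S ∈ P, -κ S - ∏ S ∈ P, -κ' S)|
      ≤ ∑ P ∈ Dj I, |∏ S ∈ P, -κ S - ∏ S ∈ P, -κ' S| := abs_sum_le_sum_abs _ _
    _ ≤ ∑ P ∈ Dj (univ : Finset ι), |∏ S ∈ P, -κ S - ∏ S ∈ P, -κ' S| :=
        sum_le_sum_of_subset_of_nonneg hD fun _ _ _ => abs_nonneg _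
    _ ≤ _ := sum_le_sum hP

/-- The pairs (a family, one of its members). -/
private theorem sum_Dj_mem {ι M : Type} [DecidableEq ι] [AddCommMonoid M] (I : Finset ι)
    (g : Finset ι → Finset (Finset ι) → M) :
    ∑ P ∈ Dj I, ∑ K ∈ P, g K (P.erase K) = ∑ K ∈ I.powerset.erase ∅, ∑ P ∈ Dj (I \ K), g K P := by
  rw [Finset.sum_sigma', Finset.sum_sigma']
  refine Finset.sum_bij' (fun x _ => (⟨x.2, x.1.erase x.2⟩ : Σ _ : Finset ι, Finset (Finset ι)))
    (fun x _ => (⟨insert x.1 x.2, x.1⟩ : Σ _ : Finset (Finset ι), Finset ι)) ?_ ?_ ?_ ?_ ?_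
  · rintro ⟨P, K⟩ hx
    rw [Finset.mem_sigma] at hx
    obtain ⟨hP, hK⟩ := hx
    dsimp only at hP hK
    rw [mem_Dj] at hP
    obtain ⟨h1, h2, h3⟩ := hP
    rw [Finset.mem_sigma]
    dsimp only
    rw [Finset.mem_erase, Finset.mem_powerset, mem_Dj]
    refine ⟨⟨fun h => h2 (h ▸ hK), h1 K hK⟩, ?_, fun h => h2 (Finset.mem_of_mem_erase h), ?_⟩
    · intro S hS
      have hSP := Finset.mem_of_mem_erase hS
      have hd := h3 S hSP K hK (Finset.ne_of_mem_erase hS)
      intro x hx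
      rw [Finset.mem_sdiff]
      exact ⟨h1 S hSP hx, fun h => Finset.disjoint_left.1 hd hx h⟩
    · intro S hS T hT hST
      exact h3 S (Finset.mem_of_mem_erase hS) T (Finset.mem_of_mem_erase hT) hST
  · rintro ⟨K, P⟩ hx
    rw [Finset.mem_sigma] at hx
    obtain ⟨hK, hP⟩ := hx
    dsimp only at hP hK
    rw [mem_Dj] at hP
    rw [Finset.mem_erase, Finset.mem_powerset] at hK
    obtain ⟨h1, h2, h3⟩ := hP
    rw [Finset.mem_sigma]
    dsimp only
    rw [mem_Dj]
    have hd : ∀ S ∈ P, Disjoint K S := by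
      intro S hS
      rw [Finset.disjoint_left]
      intro x hx hxS
      exact (Finset.mem_sdiff.1 (h1 S hS hxS)).2 hx
    refine ⟨⟨?_, ?_, ?_⟩, Finset.mem_insert_self _ _⟩
    · intro S hS
      rcases Finset.mem_insert.1 hS with rfl | hS
      · exact hK.2
      · exact (h1 S hS).trans Finset.sdiff_subset
    · intro h
      rcases Finset.mem_insert.1 h with h | h
      · exact hK.1 h.symm
      · exact h2 h
    · intro S hS T hT hST
      rcases Finset.mem_insert.1 hS with hS | hS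
      · rcases Finset.mem_insert.1 hT with hT | hT
        · exact absurd (hS.trans hT.symm) hST
        · rw [hS]; exact hd T hT
      · rcases Finset.mem_insert.1 hT with hT | hT
        · rw [hT]; exact (hd S hS).symm
        · exact h3 S hS T hT hST
  · rintro ⟨P, K⟩ hx
    rw [Finset.mem_sigma] at hx
    dsimp only at hx ⊢
    rw [Finset.insert_erase hx.2]
  · rintro ⟨K, P⟩ hx
    rw [Finset.mem_sigma] at hx
    obtain ⟨hK, hP⟩ := hx
    dsimp only at hP hK ⊢
    rw [mem_Dj] at hP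
    rw [Finset.mem_erase, Finset.mem_powerset] at hK
    have hKP : K ∉ P := by
      intro h
      apply hK.1
      rw [Finset.eq_empty_iff_forall_notMem]
      intro x hx
      exact (Finset.mem_sdiff.1 (hP.1 K h hx)).2 hx
    rw [Finset.erase_insert hKP]
  · rintro ⟨P, K⟩ _
    rfl

/-- The values after the density of one kind is changed. -/
private theorem FR_mod {ι : Type} [DecidableEq ι] (κ κ' : Finset ι → ℝ) (A : Finset ι)
    (hA : A ≠ ∅) (h : ∀ S, S ≠ A → κ' S = κ S) (I : Finset ι) :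
    FR κ' I = FR κ I + if A ⊆ I then (κ A - κ' A) * FR κ (I \ A) else 0 := by
  have h1 := sum_Dj_mem I (fun K P => if K = A then (κ A - κ' A) * ∏ S ∈ P, -κ S else 0)
  have h2 : ∀ P ∈ Dj I, ∏ S ∈ P, -κ' S = ∏ S ∈ P, -κ S +
      ∑ K ∈ P, if K = A then (κ A - κ' A) * ∏ S ∈ P.erase K, -κ S else 0 := by
    intro P _
    rw [sum_ite_eq' P A]
    split_ifs with hP
    · rw [← mul_prod_erase P (fun S => -κ' S) hP, ← mul_prod_erase P (fun S => -κ S) hP,
        prod_congr rfl fun S hS => by rw [h S (ne_of_mem_erase hS)]]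
      ring
    · rw [add_zero]
      exact prod_congr rfl fun S hS => by rw [h S fun h' => hP (h' ▸ hS)]
  have h3 : ∑ K ∈ I.powerset.erase ∅, ∑ P ∈ Dj (I \ K),
      (if K = A then (κ A - κ' A) * ∏ S ∈ P, -κ S else 0) =
      if A ⊆ I then (κ A - κ' A) * FR κ (I \ A) else 0 := by
    have h4 : ∀ K ∈ I.powerset.erase ∅, ∑ P ∈ Dj (I \ K),
        (if K = A then (κ A - κ' A) * ∏ S ∈ P, -κ S else 0) =
        if K = A then (κ A - κ' A) * FR κ (I \ K) else 0 := by
      intro K _
      split_ifs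
      · rw [← mul_sum]
        rfl
      · exact sum_const_zero
    rw [sum_congr rfl h4, sum_ite_eq']
    by_cases hI : A ⊆ I
    · rw [if_pos hI, if_pos (mem_erase.2 ⟨hA, mem_powerset.2 hI⟩)]
    · rw [if_neg hI, if_neg fun h5 => hI (mem_powerset.1 (mem_of_mem_erase h5))]
  rw [h3] at h1
  rw [← h1]
  show ∑ P ∈ Dj I, ∏ S ∈ P, -κ' S = ∑ P ∈ Dj I, ∏ S ∈ P, -κ S + _
  rw [sum_congr rfl h2, sum_add_distrib]

/-! ### The slots -/

private theorem bx_rt_mem {J q : ℕ} (S : Finset (Fin J ⊕ Fin q)) (b : Fin q) : b ∈ rt S ↔ Sum.inr b ∈ S := by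
  unfold rt
  rw [mem_filter]
  exact and_iff_right (mem_univ _)

private theorem bx_lf_mem {J q : ℕ} (S : Finset (Fin J ⊕ Fin q)) (b : Fin J) : b ∈ lf S ↔ Sum.inl b ∈ S := by
  unfold lf
  rw [mem_filter]
  exact and_iff_right (mem_univ _)

private theorem bx_card {J q : ℕ} (S : Finset (Fin J ⊕ Fin q)) : (lf S).card + (rt S).card = S.card := by
  have h1 : lf S = S.toLeft := by
    ext x
    rw [bx_lf_mem, mem_toLeft]
  have h2 : rt S = S.toRight := by
    ext x
    rw [bx_rt_mem, mem_toRight]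
  rw [h1, h2, card_toLeft_add_card_toRight]

private theorem bx_mem_tbc {J e : ℕ} (x : Fin J ⊕ Fin e) : x ∈ (tb J e)ᶜ ↔ ∃ b, x = Sum.inr b := by
  unfold tb
  rw [mem_compl, mem_filter]
  rcases x with x | x
  · simp
  · simp

private theorem bx_tbc_card (J e : ℕ) : ((tb J e)ᶜ).card = e := by
  have h1 : (tb J e)ᶜ = (univ : Finset (Fin e)).map Function.Embedding.inr := by
    ext x
    rw [bx_mem_tbc, mem_map]
    constructor
    · rintro ⟨b, rfl⟩
      exact ⟨b, mem_univ _, rfl⟩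
    · rintro ⟨b, _, rfl⟩
      exact ⟨b, rfl⟩
  rw [h1, card_map, card_univ, Fintype.card_fin]

private theorem bx_eq_tbc {J e : ℕ} (S : Finset (Fin J ⊕ Fin e)) (h1 : (lf S).card = 0)
    (h2 : (rt S).card = e) : S = (tb J e)ᶜ := by
  apply eq_of_subset_of_card_le
  · intro x hx
    rw [bx_mem_tbc]
    rcases x with x | x
    · exact absurd ((bx_lf_mem S x).2 hx) (by rw [card_eq_zero.1 h1]; exact notMem_empty _)
    · exact ⟨x, rfl⟩
  · rw [bx_tbc_card, ← bx_card S, h1, h2, zero_add]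

theorem box (d e J : ℕ) (kap : ℕ → ℝ) (h : Crit d e kap) (hJ : J + e = d) : ∃ θ : ℝ, 0 < θ ∧
    ∀ κ : Finset (Fin J ⊕ Fin e) → ℚ, (∀ S, 0 ≤ κ S) → κ (tb J e)ᶜ = 0 → κ univ = 0 →
      (∀ S, S ≠ ∅ → S ≠ (tb J e)ᶜ → S ≠ univ →
        |(κ S : ℝ) - (S.card.factorial : ℝ) * kap S.card| ≤ θ) →
      Adm (tb J e) (tb J e) κ := by
  have he := h.two
  have hed := h.lt
  have hkd : kap d = 0 := by
    by_contra hk
    have := (h.supp d hk).2
    omega
  have hk1 : kap 1 = 0 := by
    by_contra hk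
    have := (h.supp 1 hk).1
    omega
  obtain ⟨A, hA⟩ : ∃ A : Finset (Fin J ⊕ Fin e), A = (tb J e)ᶜ := ⟨_, rfl⟩
  have hAc : A.card = e := by rw [hA, bx_tbc_card]
  have hA0 : A ≠ ∅ := by
    intro h0
    rw [h0, card_empty] at hAc
    omega
  have hU : (univ : Finset (Fin J ⊕ Fin e)).card = d := by
    rw [card_univ, Fintype.card_sum, Fintype.card_fin, Fintype.card_fin, hJ]
  have hAU : A ≠ univ := by
    intro h0
    rw [h0, hU] at hAc
    omega
  have hlt : ∀ S : Finset (Fin J ⊕ Fin e), S ≠ univ → S.card < d := by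
    intro S hS
    rw [← hU]
    exact card_lt_card (ssubset_univ_iff.2 hS)
  have hek : 0 < (e.factorial : ℝ) * kap e := mul_pos (by positivity) h.pos
  -- the natural densities without the units
  obtain ⟨κ₀, hκ₀⟩ : ∃ κ₀ : Finset (Fin J ⊕ Fin e) → ℝ,
      ∀ S, κ₀ S = if S = A then 0 else (S.card.factorial : ℝ) * kap S.card := ⟨_, fun _ => rfl⟩
  have hF : ∀ I, 0 < FR κ₀ I := by
    intro I
    have h1 := FR_mod (fun S : Finset (Fin J ⊕ Fin e) => (S.card.factorial : ℝ) * kap S.card) κ₀ A hA0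
      (fun S hS => by rw [hκ₀, if_neg hS]) I
    rw [h1, FR_nat kap hk1, FR_nat kap hk1, hκ₀ A, if_pos rfl, sub_zero, hAc]
    by_cases hI : I = univ
    · subst hI
      rw [if_pos (subset_univ _), hU, h.crit, mul_zero, zero_add, card_sdiff_of_subset (subset_univ _),
        hU, hAc]
      have h2 := h.gpos (d - e) (by omega)
      positivity
    · have h2 : 0 < (I.card.factorial : ℝ) * gg kap I.card :=
        mul_pos (by positivity) (h.gpos _ (hlt I hI))
      have h3 : 0 ≤ if A ⊆ I then (e.factorial : ℝ) * kap e * (((I \ A).card.factorial : ℝ) *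
          gg kap (I \ A).card) else 0 := by
        split_ifs
        · have h4 := h.gpos (I \ A).card ((card_le_card sdiff_subset).trans_lt (hlt I hI))
          positivity
        · exact le_rfl
      linarith
  obtain ⟨I₀, -, hI₀⟩ := exists_min_image (univ : Finset (Finset (Fin J ⊕ Fin e))) (fun I => FR κ₀ I)
    ⟨∅, mem_univ _⟩
  obtain ⟨m, hm⟩ : ∃ m, m = FR κ₀ I₀ := ⟨_, rfl⟩
  have hm0 : 0 < m := hm ▸ hF I₀
  have hmI : ∀ I, m ≤ FR κ₀ I := fun I => hm ▸ hI₀ I (mem_univ _)
  obtain ⟨B, hB⟩ : ∃ B : ℝ, B = ∑ S, |κ₀ S| := ⟨_, rfl⟩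
  have hBS : ∀ S, |κ₀ S| ≤ B := fun S => by
    rw [hB]
    exact single_le_sum (f := fun S => |κ₀ S|) (fun _ _ => abs_nonneg _) (mem_univ S)
  have hB0 : 0 ≤ B := (abs_nonneg _).trans (hBS ∅)
  obtain ⟨C, hC, hL⟩ := FR_lip (Fin J ⊕ Fin e) (B + 1)
  obtain ⟨θ, hθ⟩ : ∃ θ, θ = min 1 (min ((e.factorial : ℝ) * kap e / 2) (m / (2 * (C + 1)))) := ⟨_, rfl⟩
  have hθ1 : θ ≤ 1 := hθ ▸ min_le_left _ _
  have hθ2 : θ ≤ (e.factorial : ℝ) * kap e / 2 := hθ ▸ (min_le_right _ _).trans (min_le_left _ _)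
  have hθ3 : θ ≤ m / (2 * (C + 1)) := hθ ▸ (min_le_right _ _).trans (min_le_right _ _)
  have hθ0 : 0 < θ := by
    rw [hθ]
    refine lt_min one_pos (lt_min (by positivity) (by positivity))
  refine ⟨θ, hθ0, ?_⟩
  intro κ h0 h1 h2 h3
  rw [← hA] at h1 h3
  refine ⟨h0, ?_, ?_⟩
  · intro S _ hS hSA
    rw [← hA] at hS hSA
    rw [hAc] at hS
    have h4 := h3 S (fun h5 => by rw [h5, card_empty] at hS; omega) hSA
      (fun h5 => by rw [h5, hU] at hS; omega)
    rw [hS, abs_le] at h4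
    have h5 : (0 : ℝ) < κ S := by linarith [h4.1]
    exact_mod_cast h5
  · intro I _
    have h4 : ∀ S, S ≠ ∅ → |(κ S : ℝ) - κ₀ S| ≤ θ := by
      intro S hS
      rw [hκ₀]
      by_cases h5 : S = A
      · rw [if_pos h5, h5, h1, Rat.cast_zero, sub_zero, abs_zero]
        exact hθ0.le
      · rw [if_neg h5]
        by_cases h6 : S = univ
        · rw [h6, h2, hU, hkd, mul_zero, Rat.cast_zero, sub_zero, abs_zero]
          exact hθ0.le
        · exact h3 S hS h5 h6
    have h5 := hL (fun S => if S = ∅ then 0 else (κ S : ℝ)) κ₀ θ (fun S => by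
        split_ifs with h6
        · rw [abs_zero]
          linarith
        · have h7 : |(κ S : ℝ)| ≤ |(κ S : ℝ) - κ₀ S| + |κ₀ S| := by
            have h8 := abs_add_le ((κ S : ℝ) - κ₀ S) (κ₀ S)
            rwa [sub_add_cancel] at h8
          linarith [h4 S h6, hBS S]) (fun S => (hBS S).trans (by linarith)) (fun S hS => by
        rw [if_neg hS]
        exact h4 S hS) I
    have h6 : FR (fun S => if S = ∅ then 0 else (κ S : ℝ)) I = (FF κ I : ℝ) := by
      rw [← FR_cast]
      exact FR_congr fun S _ hS => if_neg hS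
    rw [h6] at h5
    have h7 : C * θ < m := by
      have h8 : C * θ ≤ (C + 1) * (m / (2 * (C + 1))) := by
        refine mul_le_mul (by linarith) hθ3 hθ0.le (by linarith)
      have h9 : (C + 1) * (m / (2 * (C + 1))) = m / 2 := by
        have : C + 1 ≠ 0 := by linarith
        field_simp
      linarith
    have h8 := (abs_le.1 h5).1
    have h9 := hmI I
    have h10 : (0 : ℝ) < (FF κ I : ℝ) := by linarith
    exact_mod_cast h10

/-- The density of the kind `(K, a)`; `kl x` is the density for `x` slots. -/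
def dK {J : ℕ} (d e : ℕ) (kl : ℕ → ℚ) (K : Finset (Fin J)) (a : ℕ) : ℚ :=
  if 1 ≤ a ∧ a ≤ e ∧ 2 ≤ K.card + a ∧ K.card + a < d ∧ ¬ (K.card = 0 ∧ a = e) then
    kl (K.card + a) else 0

/-- The densities of the corners. -/
def IsKap {J e : ℕ} (d : ℕ) (kb : Finset (Fin J) → ℚ) (kl kh : ℕ → ℚ)
    (κ : Finset (Fin J ⊕ Fin e) → ℚ) : Prop :=
  ∀ S, if (rt S).Nonempty then
      κ S = dK d e kl (lf S) (rt S).card ∨ κ S = dK d e kh (lf S) (rt S).card
    else κ S = kb (lf S)

/-- The choice of the densities. -/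
theorem dens (d e J : ℕ) (kap : ℕ → ℝ) (h : Crit d e kap) (hJ : J + e = d) :
    ∃ (E : ℝ) (kl kh : ℕ → ℚ), 0 < E ∧ (∀ x, 0 ≤ kl x ∧ kl x < kh x) ∧
      (∀ x, kap x = 0 → kl x = 0) ∧
      (∀ x, kap x ≠ 0 → 0 < kl x ∧ (kl x : ℝ) + d.factorial * E ≤ x.factorial * kap x) ∧
      (∀ x, (x.factorial : ℝ) * kap x + d.factorial * E ≤ kh x) ∧
      ∀ kb : Finset (Fin J) → ℚ, (∀ K, 0 ≤ kb K) → (∀ K, K.card ≤ 1 → kb K = 0) →
        (∀ K : Finset (Fin J), 2 ≤ K.card →
          |(kb K : ℝ) - (K.card.factorial : ℝ) * kap K.card| ≤ E) →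
        ∀ κ : Finset (Fin J ⊕ Fin e) → ℚ, IsKap d kb kl kh κ → Adm (tb J e) (tb J e) κ := by
  classical
  have he := h.two
  have hed := h.lt
  have hk1 : kap 1 = 0 := by
    by_contra hk
    have := (h.supp 1 hk).1
    omega
  obtain ⟨θ, hθ, hbox⟩ := box d e J kap h hJ
  -- the least density
  obtain ⟨x₀, hx₀, hmin⟩ := exists_min_image ((range (e + 1)).filter fun x => kap x ≠ 0)
    (fun x => (x.factorial : ℝ) * kap x)
    ⟨e, mem_filter.2 ⟨mem_range.2 (Nat.lt_succ_self e), h.pos.ne'⟩⟩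
  obtain ⟨m, hm⟩ : ∃ m, m = (x₀.factorial : ℝ) * kap x₀ := ⟨_, rfl⟩
  have hm0 : 0 < m := by
    rw [hm]
    have h1 : 0 < kap x₀ := lt_of_le_of_ne (h.nonneg x₀) (Ne.symm (mem_filter.1 hx₀).2)
    positivity
  have hmx : ∀ x, kap x ≠ 0 → m ≤ (x.factorial : ℝ) * kap x := by
    intro x hx
    rw [hm]
    exact hmin x (mem_filter.2 ⟨mem_range.2 (Nat.lt_succ_of_le (h.supp x hx).2), hx⟩)
  obtain ⟨s, hs⟩ : ∃ s, s = min (θ / 2) (m / 4) := ⟨_, rfl⟩
  have hs0 : 0 < s := by
    rw [hs]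
    exact lt_min (by positivity) (by positivity)
  have hs1 : 2 * s ≤ θ := by
    have : s ≤ θ / 2 := hs ▸ min_le_left _ _
    linarith
  have hs2 : 4 * s ≤ m := by
    have : s ≤ m / 4 := hs ▸ min_le_right _ _
    linarith
  have hdf : (0 : ℝ) < d.factorial := by positivity
  have hdf1 : (1 : ℝ) ≤ d.factorial := by exact_mod_cast Nat.one_le_iff_ne_zero.2 (Nat.factorial_ne_zero d)
  have hlo : ∀ x, ∃ q : ℚ, kap x ≠ 0 → (x.factorial : ℝ) * kap x - 2 * s < q ∧
      (q : ℝ) < (x.factorial : ℝ) * kap x - s := fun x => by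
    obtain ⟨q, hq⟩ := exists_rat_btwn (show (x.factorial : ℝ) * kap x - 2 * s <
      (x.factorial : ℝ) * kap x - s by linarith)
    exact ⟨q, fun _ => hq⟩
  have hhi : ∀ x, ∃ q : ℚ, (x.factorial : ℝ) * kap x + s < q ∧
      (q : ℝ) < (x.factorial : ℝ) * kap x + 2 * s := fun x =>
    exists_rat_btwn (by linarith)
  choose lo hlo using hlo
  choose hi hhi using hhi
  obtain ⟨kl, hkl⟩ : ∃ kl : ℕ → ℚ, ∀ x, kl x = if kap x = 0 then 0 else lo x := ⟨_, fun _ => rfl⟩
  have hE : (d.factorial : ℝ) * (s / d.factorial) = s := by field_simp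
  have hnn : ∀ x, 0 ≤ (x.factorial : ℝ) * kap x := fun x => mul_nonneg (by positivity) (h.nonneg x)
  have hkl0 : ∀ x, 0 ≤ kl x := by
    intro x
    rw [hkl]
    split_ifs with hx
    · exact le_rfl
    · have h1 := (hlo x hx).1
      have h2 := hmx x hx
      have h3 : (0 : ℝ) ≤ lo x := by linarith
      exact_mod_cast h3
  have hkl1 : ∀ x, |(kl x : ℝ) - (x.factorial : ℝ) * kap x| ≤ θ := by
    intro x
    rw [hkl]
    split_ifs with hx
    · rw [hx, mul_zero, Rat.cast_zero, sub_zero, abs_zero]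
      exact hθ.le
    · obtain ⟨h1, h2⟩ := hlo x hx
      rw [abs_le]
      constructor <;> linarith
  have hkh1 : ∀ x, |(hi x : ℝ) - (x.factorial : ℝ) * kap x| ≤ θ := by
    intro x
    obtain ⟨h1, h2⟩ := hhi x
    rw [abs_le]
    constructor <;> linarith
  have hlh : ∀ x, kl x < hi x := by
    intro x
    have h1 := (hhi x).1
    have h2 : (kl x : ℝ) < hi x := by
      rw [hkl]
      split_ifs with hx
      · rw [Rat.cast_zero]
        linarith [hnn x]
      · linarith [(hlo x hx).2]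
    exact_mod_cast h2
  refine ⟨s / d.factorial, kl, hi, by positivity, fun x => ⟨hkl0 x, hlh x⟩,
    fun x hx => by rw [hkl, if_pos hx], fun x hx => ?_, fun x => ?_, ?_⟩
  · obtain ⟨h1, h2⟩ := hlo x hx
    rw [hE, hkl, if_neg hx]
    refine ⟨?_, by linarith⟩
    have h3 := hmx x hx
    have h4 : (0 : ℝ) < lo x := by linarith
    exact_mod_cast h4
  · rw [hE]
    exact (hhi x).1.le
  · intro kb hb0 hb1 hb2 κ hκ
    have hUJ : (univ : Finset (Fin J ⊕ Fin e)).card = d := by
      rw [card_univ, Fintype.card_sum, Fintype.card_fin, Fintype.card_fin, hJ]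
    have hdK0 : ∀ (k : ℕ → ℚ) (K : Finset (Fin J)) (a : ℕ), (∀ x, 0 ≤ k x) → 0 ≤ dK d e k K a := by
      intro k K a hk
      unfold dK
      split_ifs
      · exact hk _
      · exact le_rfl
    have hhi0 : ∀ x, 0 ≤ hi x := fun x => (hkl0 x).trans (hlh x).le
    have hrt : ∀ S : Finset (Fin J ⊕ Fin e), (rt S).card ≤ e := fun S => by
      have h1 := card_le_univ (rt S)
      rwa [Fintype.card_fin] at h1
    apply hbox κ
    · intro S
      have h1 := hκ S
      split_ifs at h1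
      · rcases h1 with h1 | h1
        · rw [h1]
          exact hdK0 _ _ _ hkl0
        · rw [h1]
          exact hdK0 _ _ _ hhi0
      · rw [h1]
        exact hb0 _
    · have h1 := hκ (tb J e)ᶜ
      have h2 : lf (tb J e)ᶜ = ∅ := by
        ext x
        rw [bx_lf_mem, bx_mem_tbc]
        simp
      have h3 : (rt (tb J e)ᶜ).card = e := by
        have h4 := bx_card (tb J e)ᶜ
        rw [h2, card_empty, zero_add, bx_tbc_card] at h4
        exact h4
      have h4 : (rt (tb J e)ᶜ).Nonempty := by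
        rw [← card_pos, h3]
        omega
      rw [if_pos h4, h2, h3] at h1
      have h5 : ∀ k : ℕ → ℚ, dK d e k (∅ : Finset (Fin J)) e = 0 := by
        intro k
        unfold dK
        rw [if_neg]
        rintro ⟨-, -, -, -, h6⟩
        exact h6 ⟨card_empty, rfl⟩
      rw [h5, h5, or_self] at h1
      exact h1
    · have h1 := hκ univ
      have h2 : (lf (univ : Finset (Fin J ⊕ Fin e))).card + (rt (univ : Finset (Fin J ⊕ Fin e))).card = d := by
        rw [bx_card, hUJ]
      have h3 : (rt (univ : Finset (Fin J ⊕ Fin e))).Nonempty := by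
        refine ⟨⟨0, by omega⟩, ?_⟩
        rw [bx_rt_mem]
        exact mem_univ _
      rw [if_pos h3] at h1
      have h5 : ∀ k : ℕ → ℚ, dK d e k (lf (univ : Finset (Fin J ⊕ Fin e)))
          (rt (univ : Finset (Fin J ⊕ Fin e))).card = 0 := by
        intro k
        unfold dK
        rw [if_neg]
        rintro ⟨-, -, -, h6, -⟩
        omega
      rw [h5, h5, or_self] at h1
      exact h1
    · intro S hS0 hSA hSU
      have h1 := hκ S
      have hc := bx_card S
      have hS1 : 1 ≤ S.card := card_pos.2 (nonempty_iff_ne_empty.2 hS0)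
      have hSd : S.card < d := by
        rw [← hUJ]
        exact card_lt_card (ssubset_univ_iff.2 hSU)
      by_cases hr : (rt S).Nonempty
      · rw [if_pos hr] at h1
        have hr1 : 1 ≤ (rt S).card := card_pos.2 hr
        rcases Nat.lt_or_ge S.card 2 with h2 | h2
        · have h3 : S.card = 1 := by omega
          have h4 : ∀ k : ℕ → ℚ, dK d e k (lf S) (rt S).card = 0 := by
            intro k
            unfold dK
            rw [if_neg]
            rintro ⟨-, -, h6, -, -⟩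
            omega
          rw [h4, h4, or_self] at h1
          rw [h1, h3, hk1, mul_zero, Rat.cast_zero, sub_zero, abs_zero]
          exact hθ.le
        · have h4 : ∀ k : ℕ → ℚ, dK d e k (lf S) (rt S).card = k S.card := by
            intro k
            unfold dK
            rw [if_pos, hc]
            refine ⟨hr1, hrt S, by omega, by omega, ?_⟩
            rintro ⟨h5, h6⟩
            exact hSA (bx_eq_tbc S h5 h6)
          rw [h4, h4] at h1
          rcases h1 with h1 | h1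
          · rw [h1]
            exact hkl1 _
          · rw [h1]
            exact hkh1 _
      · rw [if_neg hr] at h1
        have hr0 : (rt S).card = 0 := card_eq_zero.2 (not_nonempty_iff_eq_empty.1 hr)
        have hlS : (lf S).card = S.card := by omega
        rw [h1]
        rcases Nat.lt_or_ge S.card 2 with h2 | h2
        · have h3 : S.card = 1 := by omega
          rw [hb1 (lf S) (by omega), h3, hk1, mul_zero, Rat.cast_zero, sub_zero, abs_zero]
          exact hθ.le
        · have h3 := hb2 (lf S) (by omega)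
          rw [hlS] at h3
          refine h3.trans ?_
          rw [div_le_iff₀ hdf]
          nlinarith

end Pool.Agent.GD.BE
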