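import Pool.Agent.H94.LP7.GD.BE.Box
import Pool.Agent.H94.LP7.M57
import Pool.Agent.H94.LP7.M58
import Pool.Agent.H94.LP7.M59
import Pool.Agent.H94.LP7.M61
import Pool.Agent.H94.LP7.M62

/-!
# General d, block BETA, module Gain: the gain for many blocks

PROOF.  `T = I = tb J e`.  The finitely many `κ` with `IsKap d kb kl kh κ` are admissible; `N` = product of the
numbers of `strict`, `semi_gn_ai`, `semi_ai`, `base_ai` for all of them and of the denominators of `kl x`, `kh x`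
(`x < d`), `kb K`, and of `FF κ T` (so that `b` is an integer; it depends only on `kb`).  Given `c`, `cz`: `lo`,
`hi` are the integers wanted, `P₀ = Σ K, Fin (n₀ K)` with `n₀ K = kb K * ∏ c`, `m₀ ⟨K, _⟩ = K.map inl`, `r` an
independent position (`ai_dense`).  For a corner `η` (`IsCor`) the densities `κ S = η S / pc S` (base: `kb`) satisfy
`IsKap`, and `Cfg (cd c cz) T T κ m₀ (mC nhi η)`; `lm η` = the integer `lam` (`semi_ai`), `hsem` = `semi_gn_ai`,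
`hstr` = `strict` for `E ≤ Dep T`, `1 ≤ finrank E < b`.  `lab` with `D = Dep (cd c cz) T`, `S = {h | 1 ≤ h < b}`,
`κ' = PB ν q`, `ν' = RC c cz J q`, `vis δ` (`vis_gn`, `vis_cont`, `gb_not_bad`, `vis_tmpl`); `E = ext e cz F`
(`finrank_ext`, `ext_le`).  `lam * b = (∏ c) * cz ^ e * FF κ univ` and `FF κ = FR (kcor ..)` (`FR_cast`,
`FR_congr`).
-/

set_option autoImplicit false

namespace Pool.Agent.GD.BE

open Finset MvPolynomial Module Pool.Agent.H51.TB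
open Pool.Agent.GD.Top (TI)

/-! ### auxiliary -/

section prep

variable {J e : ℕ}

private theorem disj_eq (S : Finset (Fin J ⊕ Fin e)) : (lf S).disjSum (rt S) = S := by
  ext x
  rcases x with j | b
  · rw [inl_mem_disjSum]
    unfold lf
    simp
  · rw [inr_mem_disjSum]
    unfold rt
    simp

private theorem pc_cd (c : ℕ → ℕ) (cz : ℕ) (S : Finset (Fin J ⊕ Fin e)) :
    pc (cd c cz) S = (∏ i ∈ lf S, (c i : ℚ)) * (cz : ℚ) ^ (rt S).card := by
  have h : pc (cd c cz) S = ∏ i ∈ (lf S).disjSum (rt S), (cd c cz i : ℚ) := by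
    rw [disj_eq]
    rfl
  rw [h, prod_disjSum]
  congr 1
  rw [← prod_const]
  rfl

private theorem lf_tb : lf (tb J e) = univ := by
  ext j
  unfold lf tb
  simp

private theorem rt_tb : rt (tb J e) = ∅ := by
  ext j
  unfold rt tb
  simp

private theorem lf_univ : lf (univ : Finset (Fin J ⊕ Fin e)) = univ := by
  ext j
  unfold lf
  simp

private theorem rt_univ : rt (univ : Finset (Fin J ⊕ Fin e)) = univ := by
  ext j
  unfold rt
  simp

private theorem tbc_card : ((tb J e)ᶜ : Finset (Fin J ⊕ Fin e)).card = e := by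
  have h : ((tb J e)ᶜ : Finset (Fin J ⊕ Fin e)) =
      (univ : Finset (Fin e)).map ⟨Sum.inr, Sum.inr_injective⟩ := by
    ext x
    rw [mem_compl, mem_map]
    unfold tb
    rcases x with j | b
    · simp
    · simp
  rw [h, card_map, card_univ, Fintype.card_fin]

open Classical in
/-- The finite set of the densities. -/
private noncomputable def KK (d : ℕ) (kb : Finset (Fin J) → ℚ) (kl kh : ℕ → ℚ) :
    Finset (Finset (Fin J ⊕ Fin e) → ℚ) :=
  Fintype.piFinset fun S => if (rt S).Nonempty then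
    {dK d e kl (lf S) (rt S).card, dK d e kh (lf S) (rt S).card} else {kb (lf S)}

private theorem mem_KK {d : ℕ} {kb : Finset (Fin J) → ℚ} {kl kh : ℕ → ℚ}
    {κ : Finset (Fin J ⊕ Fin e) → ℚ} : κ ∈ KK d kb kl kh ↔ IsKap d kb kl kh κ := by
  unfold KK IsKap
  rw [Fintype.mem_piFinset]
  refine forall_congr' fun S => ?_
  by_cases h : (rt S).Nonempty
  · rw [if_pos h, if_pos h, mem_insert, mem_singleton]
  · rw [if_neg h, if_neg h, mem_singleton]

private theorem dK_mono {d : ℕ} {kl kh : ℕ → ℚ} (h0 : ∀ x, 0 ≤ kl x ∧ kl x < kh x)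
    (K : Finset (Fin J)) (a : ℕ) : 0 ≤ dK d e kl K a ∧ dK d e kl K a ≤ dK d e kh K a := by
  unfold dK
  split_ifs
  · exact ⟨(h0 _).1, (h0 _).2.le⟩
  · exact ⟨le_refl _, le_refl _⟩

/-- The base values are the same for all corners. -/
private theorem bI_eq {d : ℕ} {kb : Finset (Fin J) → ℚ} {kl kh : ℕ → ℚ}
    {κ : Finset (Fin J ⊕ Fin e) → ℚ} (h : IsKap d kb kl kh κ) (c : ℕ → ℕ) (cz : ℕ) :
    ((bI (cd c cz) (tb J e) κ : ℚ) : ℝ) =
      (∏ i ∈ range J, (c i : ℝ)) * FR (kbR kb) (tb J e) := by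
  unfold bI
  rw [pc_cd, lf_tb, rt_tb, card_empty, pow_zero, mul_one]
  push_cast
  rw [← FR_cast, prod_range fun i => (c i : ℝ)]
  congr 1
  refine Pool.Agent.GD.VT.FR_congr fun S hS _ => ?_
  have h1 := h S
  rw [if_neg fun h2 => (rt_iff S).1 h2 hS] at h1
  unfold kbR
  rw [h1]

private theorem lf_mm (n₀ : Finset (Fin J) → ℕ) (x : PP n₀) : lf (mm e n₀ x) = x.1 := by
  ext j
  unfold lf mm
  simp

private theorem card_mm (n₀ : Finset (Fin J) → ℕ) (K : Finset (Fin J)) :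
    Nat.card {x : PP n₀ // lf (mm e n₀ x) = K} = n₀ K := by
  rw [← card_fib n₀ K]
  exact Nat.card_congr (Equiv.subtypeEquivRight fun x => by rw [lf_mm])

private theorem mm_eq (n₀ : Finset (Fin J) → ℕ) (x : PP n₀) {S : Finset (Fin J ⊕ Fin e)}
    (hS : S ⊆ tb J e) : mm e n₀ x = S ↔ x.1 = lf S := by
  constructor
  · intro h
    rw [← h, lf_mm]
  · intro h
    have h1 : rt S = ∅ := by
      by_contra h2
      exact (rt_iff S).1 (nonempty_iff_ne_empty.2 h2) hS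
    have h3 : rt (mm e n₀ x) = ∅ := by
      by_contra h2
      exact (rt_iff _).1 (nonempty_iff_ne_empty.2 h2) (mm_sub n₀ x)
    rw [← disj_eq S, ← disj_eq (mm e n₀ x), h1, h3, lf_mm, h]

/-- The configuration of a corner. -/
private theorem cfg_kq {kb : Finset (Fin J) → ℚ} {c : ℕ → ℕ} {cz : ℕ} (hc : ∀ i < J, 0 < c i)
    (hz : 0 < cz) {n₀ : Finset (Fin J) → ℕ}
    (hn₀ : ∀ K, (n₀ K : ℚ) = kb K * ∏ i ∈ K, (c i : ℚ)) (hkb0 : kb ∅ = 0)
    (nh η : Finset (Fin J ⊕ Fin e) → ℕ) (h : ∀ S, η S ≤ nh S)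
    (h0 : ∀ S, ¬ (rt S).Nonempty → η S = 0) :
    Cfg (cd c cz) (tb J e) (tb J e) (kq kb c cz η) (mm e n₀) (mC nh η) := by
  have hcd : ∀ i : Fin J ⊕ Fin e, 0 < cd c cz i := by
    rintro (i | i)
    · exact hc i i.2
    · exact hz
  refine ⟨fun x => ⟨mm_sub n₀ x, fun hx => ?_⟩, fun x => ⟨?_, fun hx => ?_⟩,
    fun S hS hS0 => ?_, fun S hS hST => ?_⟩
  · have h1 : x.1 = ∅ := by
      rw [← lf_mm (e := e) n₀ x, hx]
      ext j
      unfold lf
      simp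
    have h2 : (n₀ ∅ : ℚ) = 0 := by rw [hn₀, hkb0, zero_mul]
    have h3 : n₀ ∅ = 0 := by exact_mod_cast h2
    have h4 : x.2.1 < n₀ x.1 := x.2.2
    have h5 : n₀ x.1 = 0 := by rw [h1, h3]
    omega
  · rw [union_compl]
    exact subset_univ _
  · have h1 : η x.1.1 = 0 := h0 _ fun h2 => (rt_iff _).1 h2 hx
    have h2 := x.2
    rw [h1] at h2
    exact absurd h2 (Nat.not_lt_zero _)
  · have h1 : Nat.card {x // mm e n₀ x = S} = n₀ (lf S) := by
      rw [← card_fib n₀ (lf S)]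
      exact Nat.card_congr (Equiv.subtypeEquivRight fun x => mm_eq n₀ x hS)
    have h2 : rt S = ∅ := by
      by_contra h2
      exact (rt_iff S).1 (nonempty_iff_ne_empty.2 h2) hS
    rw [h1, hn₀, pc_cd, h2, card_empty, pow_zero, mul_one]
    unfold kq
    rw [if_neg fun h3 => (rt_iff S).1 h3 hS]
  · rw [card_mC nh η h S]
    unfold kq
    rw [if_pos ((rt_iff S).2 hST), div_mul_cancel₀ _ (semi_pc_pos hcd S).ne']

/-- The densities of a corner are admissible ones. -/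
private theorem isKap_kq {d : ℕ} {kb : Finset (Fin J) → ℚ} {kl kh : ℕ → ℚ} {c : ℕ → ℕ} {cz : ℕ}
    (hc : ∀ i < J, 0 < c i) (hz : 0 < cz) {ν : Nos J}
    (hlo : ∀ K a, (ν.lo K a : ℚ) = dK d e kl K a * (∏ i ∈ K, (c i : ℚ)) * (cz : ℚ) ^ a)
    (hhi : ∀ K a, (ν.hi K a : ℚ) = dK d e kh K a * (∏ i ∈ K, (c i : ℚ)) * (cz : ℚ) ^ a)
    {η : Finset (Fin J ⊕ Fin e) → ℕ} (hη : IsCor ν η) :
    IsKap d kb kl kh (kq kb c cz η) := by
  have hcd : ∀ i : Fin J ⊕ Fin e, 0 < cd c cz i := by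
    rintro (i | i)
    · exact hc i i.2
    · exact hz
  intro S
  by_cases h : (rt S).Nonempty
  · rw [if_pos h]
    have h1 := hη S
    rw [if_pos h] at h1
    have h2 := (semi_pc_pos hcd S).ne'
    unfold kq
    rw [if_pos h, div_eq_iff h2, div_eq_iff h2, pc_cd, ← mul_assoc, ← mul_assoc]
    rcases h1 with h1 | h1
    · left
      rw [h1, hlo]
    · right
      rw [h1, hhi]
  · rw [if_neg h]
    unfold kq
    rw [if_neg h]

private theorem cor_le {d : ℕ} {kl kh : ℕ → ℚ} (h0 : ∀ x, 0 ≤ kl x ∧ kl x < kh x) {c : ℕ → ℕ}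
    {cz : ℕ} {ν : Nos J}
    (hlo : ∀ K a, (ν.lo K a : ℚ) = dK d e kl K a * (∏ i ∈ K, (c i : ℚ)) * (cz : ℚ) ^ a)
    (hhi : ∀ K a, (ν.hi K a : ℚ) = dK d e kh K a * (∏ i ∈ K, (c i : ℚ)) * (cz : ℚ) ^ a)
    {η : Finset (Fin J ⊕ Fin e) → ℕ} (hη : IsCor ν η) (S : Finset (Fin J ⊕ Fin e)) :
    η S ≤ nhi ν S := by
  have hlh : ν.lo (lf S) (rt S).card ≤ ν.hi (lf S) (rt S).card := by
    have h1 : (ν.lo (lf S) (rt S).card : ℚ) ≤ ν.hi (lf S) (rt S).card := by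
      rw [hlo, hhi]
      exact mul_le_mul_of_nonneg_right (mul_le_mul_of_nonneg_right (dK_mono h0 _ _).2
        (prod_nonneg fun i _ => Nat.cast_nonneg _)) (pow_nonneg (Nat.cast_nonneg _) _)
    exact_mod_cast h1
  have h1 := hη S
  unfold nhi
  by_cases h : (rt S).Nonempty
  · rw [if_pos h] at h1 ⊢
    rcases h1 with h1 | h1
    · rw [h1]; exact hlh
    · rw [h1]
  · rw [if_neg h] at h1 ⊢
    rw [h1]

/-- The critical number of a corner. -/
private theorem lam_mul {d : ℕ} {kb : Finset (Fin J) → ℚ} {kl kh : ℕ → ℚ} {c : ℕ → ℕ} {cz : ℕ}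
    {η : Finset (Fin J ⊕ Fin e) → ℕ} (hκ : IsKap d kb kl kh (kq kb c cz η))
    (hA : Adm (tb J e) (tb J e) (kq kb c cz η)) :
    ((lam (cd c cz) (tb J e) (tb J e) (kq kb c cz η) : ℚ) : ℝ) *
      ((∏ i ∈ range J, (c i : ℝ)) * FR (kbR kb) (tb J e)) =
      (∏ i ∈ range J, (c i : ℝ)) * (cz : ℝ) ^ e * FR (kcor (kbR kb) (DD c cz) η) univ := by
  have h1 : lam (cd c cz) (tb J e) (tb J e) (kq kb c cz η) * bI (cd c cz) (tb J e) (kq kb c cz η) =
      pc (cd c cz) (univ : Finset (Fin J ⊕ Fin e)) * FF (kq kb c cz η) univ := by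
    have h2 : 0 < FF (kq kb c cz η) (tb J e) := hA.F _ (by
      rw [union_compl]; exact subset_univ _)
    have h3 : pc (cd c cz) (univ : Finset (Fin J ⊕ Fin e)) = pc (cd c cz) (tb J e)ᶜ * pc (cd c cz) (tb J e) := by
      unfold pc
      rw [mul_comm]
      exact (Finset.prod_mul_prod_compl (tb J e) fun i => (cd c cz i : ℚ)).symm
    unfold lam bI
    rw [union_compl, h3]
    field_simp
  have h4 : (FF (kq kb c cz η) univ : ℝ) = FR (kcor (kbR kb) (DD c cz) η) univ := by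
    rw [← FR_cast]
    refine Pool.Agent.GD.VT.FR_congr fun S _ _ => ?_
    unfold kq kcor
    by_cases h : (rt S).Nonempty
    · rw [if_pos h, if_pos h, pc_cd]
      unfold DD
      push_cast
      rfl
    · rw [if_neg h, if_neg h]
      rfl
  rw [← bI_eq hκ c cz, ← h4]
  have h5 : ((pc (cd c cz) (univ : Finset (Fin J ⊕ Fin e)) : ℚ) : ℝ) =
      (∏ i ∈ range J, (c i : ℝ)) * (cz : ℝ) ^ e := by
    rw [pc_cd, lf_univ, rt_univ, card_univ, Fintype.card_fin, prod_range fun i => (c i : ℝ)]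
    push_cast
    rfl
  rw [← h5]
  exact_mod_cast h1

end prep

theorem gain (d e J : ℕ) (he : 2 ≤ e) (hJ : J + e = d) (kl kh : ℕ → ℚ)
    (h0 : ∀ x, 0 ≤ kl x ∧ kl x < kh x) (kb : Finset (Fin J) → ℚ) (hkb : ∀ K, 0 ≤ kb K)
    (hkb0 : kb ∅ = 0)
    (hA : ∀ κ : Finset (Fin J ⊕ Fin e) → ℚ, IsKap d kb kl kh κ → Adm (tb J e) (tb J e) κ) :
    ∃ N : ℕ, 0 < N ∧ ∀ (c : ℕ → ℕ) (cz : ℕ), (∀ i < J, 0 < c i ∧ N ∣ c i) → 0 < cz → N ∣ cz →
      ∃ (lo hi : Finset (Fin J) → ℕ → ℕ) (b : ℕ),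
        (∀ K a, (lo K a : ℚ) = dK d e kl K a * (∏ i ∈ K, (c i : ℚ)) * (cz : ℚ) ^ a ∧
          (hi K a : ℚ) = dK d e kh K a * (∏ i ∈ K, (c i : ℚ)) * (cz : ℚ) ^ a) ∧
        (b : ℝ) = (∏ i ∈ range J, (c i : ℝ)) * FR (kbR kb) (tb J e) ∧
        ∃ (P₀ : Type) (_ : Fintype P₀) (m₀ : P₀ → Finset (Fin J ⊕ Fin e))
          (r : P₀ → (Σ i : Fin J ⊕ Fin e, Fin (cd c cz i)) → ℂ) (s : ℕ),
          (∀ z, m₀ z ⊆ tb J e) ∧
          (∀ K, (Nat.card {z // lf (m₀ z) = K} : ℚ) = kb K * ∏ i ∈ K, (c i : ℚ)) ∧ 0 < s ∧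
          ∀ ν : Nos J, ν.lo = lo → ν.hi = hi → ∀ (q₀ : ℕ) (δ : Dpn ν (e * (2 * s) * q₀)), δ.Ok →
            (∀ u ∈ δ.D, ∀ (j : Fin s) (f : Fin e → Fin q₀), ¬ Sees (gb j f) u) →
            ∃ p : PB ν (e * (2 * s) * q₀) → RC c cz J (e * (2 * s) * q₀) → ℂ,
              ∀ F : Submodule ℂ (TI c J → ℂ), F ≠ ⊥ → finrank ℂ F < b →
                ((∑ α ∈ univ \ bad e δ, finrank ℂ (KE (tb J e)
                    (Sum.elim m₀ (mC (nhi ν) (cor ν α)))
                    (Sum.elim r (pos ν α (vis δ p))) (ext e cz F)) + q₀ ^ e : ℕ) : ℝ) * b ≤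
                  finrank ℂ F * ((∏ i ∈ range J, (c i : ℝ)) * (cz : ℝ) ^ e *
                    ∑ α : Fin e ↪o Fin (e * (2 * s) * q₀),
                      FR (kcor (kbR kb) (DD c cz) (cor ν α)) univ) := by
  classical
  have hT : ((tb J e)ᶜ : Finset (Fin J ⊕ Fin e)).card = e := tbc_card
  have hT0 : ((tb J e)ᶜ : Finset (Fin J ⊕ Fin e)) ≠ ∅ := fun h => by
    rw [h, card_empty] at hT
    omega
  obtain ⟨N₁, hN₁, hR⟩ := exists_N (KK (e := e) d kb kl kh)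
    (fun κ (c : Fin J ⊕ Fin e → ℕ) => (∃ l : ℕ, (l : ℚ) = lam c (tb J e) (tb J e) κ) ∧
      (∀ (P₀ P₁ : Type) [Fintype P₀] [Fintype P₁] (m₀ : P₀ → Finset (Fin J ⊕ Fin e))
        (m₁ : P₁ → Finset (Fin J ⊕ Fin e)),
        (∀ S ⊆ tb J e ∪ (tb J e)ᶜ, S ≠ ∅ →
          κ S * pc c S ≤ (Nat.card {x // Sum.elim m₀ m₁ x = S} : ℚ)) →
          ∀ r : P₀ → (Σ i, Fin (c i)) → ℂ, AI r →
            Gn P₁ (Σ i, Fin (c i)) fun y => ∀ E : Submodule ℂ ((∀ i, Fin (c i)) → ℂ),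
              (finrank ℂ (KE (tb J e) (Sum.elim m₀ m₁) (Sum.elim r y) E) : ℚ) ≤
                lam c (tb J e) (tb J e) κ * finrank ℂ E) ∧
      (∀ (P₀ P₁ : Type) [Fintype P₀] [Fintype P₁] (m₀ : P₀ → Finset (Fin J ⊕ Fin e))
        (m₁ : P₁ → Finset (Fin J ⊕ Fin e)),
          Cfg c (tb J e) (tb J e) κ m₀ m₁ → ∀ r : P₀ → (Σ i, Fin (c i)) → ℂ, AI r →
            Str (tb J e) (tb J e) κ m₀ m₁ r) ∧
      (∀ (P₀ : Type) [Fintype P₀] (m₀ : P₀ → Finset (Fin J ⊕ Fin e)),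
        (∀ x, m₀ x ⊆ tb J e ∧ m₀ x ≠ ∅) →
        (∀ S ⊆ tb J e, S ≠ ∅ → (Nat.card {x // m₀ x = S} : ℚ) = κ S * pc c S) →
          ∀ r : P₀ → (Σ i, Fin (c i)) → ℂ, AI r →
            (finrank ℂ ((TS (Fin J ⊕ Fin e) c).V m₀ r ⊓ Dep c (tb J e) :
              Submodule ℂ ((∀ i, Fin (c i)) → ℂ)) : ℚ) = bI c (tb J e) κ)) (by
      intro κ hκ
      have hadm := hA κ (mem_KK.1 hκ)
      obtain ⟨n1, h1, h1'⟩ := semi_ai (tb J e) (tb J e) subset_rfl hT0 κ hadm.nonneg hadm.F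
      obtain ⟨n2, h2, h2'⟩ := semi_gn_ai (tb J e) (tb J e) subset_rfl hT0 κ hadm.nonneg hadm.F
      obtain ⟨n3, h3, h3'⟩ := strict (tb J e) (by rw [hT]; exact he) (tb J e).card (tb J e)
        subset_rfl le_rfl κ hadm
      obtain ⟨n4, h4, h4'⟩ := base_ai (tb J e) κ hadm.nonneg
        (fun K hK => hadm.F K (hK.trans subset_union_left))
      refine ⟨n1 * n2 * n3 * n4, by positivity, fun c hc => ⟨?_, ?_, ?_, ?_⟩⟩
      · exact (h1' c fun i => ⟨(hc i).1, ((((dvd_mul_right n1 n2).mul_right n3).mul_right n4).trans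
          (hc i).2)⟩).1
      · exact h2' c fun i => ⟨(hc i).1, ((((dvd_mul_left n2 n1).mul_right n3).mul_right n4).trans
          (hc i).2)⟩
      · exact h3' c fun i => ⟨(hc i).1, (((dvd_mul_left n3 (n1 * n2)).mul_right n4).trans
          (hc i).2)⟩
      · exact h4' c fun i => ⟨(hc i).1, (dvd_mul_left n4 (n1 * n2 * n3)).trans (hc i).2⟩)
  set N₂ : ℕ := ∏ x ∈ range d, ((kl x).den * (kh x).den) with hN₂
  set N₃ : ℕ := ∏ K : Finset (Fin J), (kb K).den with hN₃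
  have hN₂0 : 0 < N₂ := prod_pos fun x _ => Nat.mul_pos (Rat.den_pos _) (Rat.den_pos _)
  have hN₃0 : 0 < N₃ := prod_pos fun K _ => Rat.den_pos _
  refine ⟨N₁ * N₂ * N₃, by positivity, fun c cz hc hz hcz => ?_⟩
  have hcd : ∀ i : Fin J ⊕ Fin e, 0 < cd c cz i ∧ N₁ * N₂ * N₃ ∣ cd c cz i := by
    rintro (i | i)
    · exact hc i i.2
    · exact ⟨hz, hcz⟩
  have hR' := fun κ hκ => hR κ hκ (cd c cz) fun i =>
    ⟨(hcd i).1, (((dvd_mul_right N₁ N₂).mul_right N₃).trans (hcd i).2)⟩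
  -- the integers
  have hint : ∀ (k : ℕ → ℚ), (∀ x, 0 ≤ k x) → (∀ x < d, (k x).den ∣ N₂) →
      ∀ (K : Finset (Fin J)) (a : ℕ), ∃ n : ℕ, (n : ℚ) =
        dK d e k K a * (∏ i ∈ K, (c i : ℚ)) * (cz : ℚ) ^ a := by
    intro k hk hkd K a
    unfold dK
    split_ifs with h
    · obtain ⟨n, hn⟩ := int_of_den (hk (K.card + a)) (m := (∏ i ∈ K, c i) * cz ^ a) (by
        refine ((hkd _ h.2.2.2.1).trans ?_).trans (dvd_mul_left _ _)
        refine Dvd.dvd.trans ?_ (dvd_pow_self cz (by omega : a ≠ 0))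
        exact (((dvd_mul_left N₂ N₁).mul_right N₃).trans hcz))
      refine ⟨n, ?_⟩
      rw [hn]
      push_cast
      ring
    · exact ⟨0, by push_cast; ring⟩
  choose lo hlo using hint kl (fun x => (h0 x).1) fun x hx =>
    (dvd_mul_right _ _).trans (dvd_prod_of_mem (fun x => (kl x).den * (kh x).den)
      (mem_range.2 hx))
  choose hi hhi using hint kh (fun x => (h0 x).1.trans (h0 x).2.le) fun x hx =>
    (dvd_mul_left _ _).trans (dvd_prod_of_mem (fun x => (kl x).den * (kh x).den)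
      (mem_range.2 hx))
  have hbase : ∀ K : Finset (Fin J), ∃ n : ℕ, (n : ℚ) = kb K * ∏ i ∈ K, (c i : ℚ) := by
    intro K
    rcases K.eq_empty_or_nonempty with rfl | ⟨i, hi⟩
    · exact ⟨0, by rw [hkb0]; push_cast; ring⟩
    · obtain ⟨n, hn⟩ := int_of_den (hkb K) (m := ∏ i ∈ K, c i) (by
        refine Dvd.dvd.trans ?_ (dvd_prod_of_mem (fun i : Fin J => c i) hi)
        refine Dvd.dvd.trans ?_ (hc i i.2).2
        exact (dvd_prod_of_mem (fun K : Finset (Fin J) => (kb K).den) (mem_univ K)).trans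
          (dvd_mul_left _ _))
      refine ⟨n, ?_⟩
      rw [hn]
      push_cast
      rfl
  choose n₀ hn₀ using hbase
  set ν₀ : Nos J := ⟨lo, hi, fun _ _ => 0, 1⟩ with hν₀
  have hc0 : ∀ i < J, 0 < c i := fun i hi => (hc i hi).1
  -- the corners
  have hkap : ∀ η : Finset (Fin J ⊕ Fin e) → ℕ, IsCor ν₀ η → IsKap d kb kl kh (kq kb c cz η) :=
    fun η hη => isKap_kq (ν := ν₀) hc0 hz hlo hhi hη
  have hcfg : ∀ η : Finset (Fin J ⊕ Fin e) → ℕ, IsCor ν₀ η →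
      Cfg (cd c cz) (tb J e) (tb J e) (kq kb c cz η) (mm e n₀) (mC (nhi ν₀) η) :=
    fun η hη => cfg_kq hc0 hz hn₀ hkb0 (nhi ν₀) η (cor_le (ν := ν₀) h0 hlo hhi hη) fun S hS => by
      have h1 := hη S
      rwa [if_neg hS] at h1
  obtain ⟨r, -, hr⟩ := ai_dense (P := PP n₀) (X := Σ i : Fin J ⊕ Fin e, Fin (cd c cz i))
    (fun _ _ => 0) Set.univ Filter.univ_mem
  -- the number of the base space
  obtain ⟨b, hb⟩ : ∃ b : ℕ, (b : ℝ) =
      (∏ i ∈ range J, (c i : ℝ)) * FR (kbR kb) (tb J e) := by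
    set η₀ : Finset (Fin J ⊕ Fin e) → ℕ :=
      fun S => if (rt S).Nonempty then lo (lf S) (rt S).card else 0 with hη₀
    have h1 : IsCor ν₀ η₀ := by
      intro S
      by_cases h : (rt S).Nonempty
      · rw [if_pos h]
        left
        exact if_pos h
      · rw [if_neg h]
        exact if_neg h
    have h2 := (hR' _ (mem_KK.2 (hkap η₀ h1))).2.2.2 (PP n₀) (mm e n₀) (hcfg η₀ h1).base
      (hcfg η₀ h1).card₀ r hr
    refine ⟨finrank ℂ ((TS (Fin J ⊕ Fin e) (cd c cz)).V (mm e n₀) r ⊓ Dep (cd c cz) (tb J e) :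
        Submodule ℂ ((∀ i : Fin J ⊕ Fin e, Fin (cd c cz i)) → ℂ)),
      Eq.trans ?_ (bI_eq (hkap η₀ h1) c cz)⟩
    rw [← h2]
    exact (Rat.cast_natCast _).symm
  -- the critical numbers
  have hlm : ∀ η : Finset (Fin J ⊕ Fin e) → ℕ, ∃ l : ℕ, IsCor ν₀ η →
      (l : ℚ) = lam (cd c cz) (tb J e) (tb J e) (kq kb c cz η) := by
    intro η
    by_cases hη : IsCor ν₀ η
    · obtain ⟨l, hl⟩ := (hR' _ (mem_KK.2 (hkap η hη))).1
      exact ⟨l, fun _ => hl⟩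
    · exact ⟨0, fun h => absurd h hη⟩
  choose lm hlm using hlm
  have hbη : ∀ η : Finset (Fin J ⊕ Fin e) → ℕ, IsCor ν₀ η →
      (b : ℚ) = bI (cd c cz) (tb J e) (kq kb c cz η) := by
    intro η hη
    have h1 := bI_eq (hkap η hη) c cz
    rw [← hb] at h1
    exact_mod_cast h1.symm
  obtain ⟨s, hs, hlab⟩ := lab (by omega : 0 < e) ν₀ (mm e n₀) r lm (by
      intro η hη
      have h1 := (hR' _ (mem_KK.2 (hkap η hη))).2.1 (PP n₀) (PC (nhi ν₀) η) (mm e n₀)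
        (mC (nhi ν₀) η) (fun S _ hS => cfg_le (hcfg η hη) S hS) r hr
      refine h1.mono fun y hy E => ?_
      have h2 := hy E
      rw [← hlm η hη] at h2
      exact_mod_cast h2)
    (Dep (cd c cz) (tb J e)) {h | 1 ≤ h ∧ h < b} (by
      intro η hη E hE hES
      have h1 := (hR' _ (mem_KK.2 (hkap η hη))).2.2.1 (PP n₀) (PC (nhi ν₀) η) (mm e n₀)
        (mC (nhi ν₀) η) (hcfg η hη) r hr E hE (fun h => by
          have h2 : 1 ≤ finrank ℂ E := hES.1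
          rw [h, finrank_bot] at h2
          omega) (by
          rw [← hbη η hη]
          exact_mod_cast hES.2)
      obtain ⟨y, hy⟩ := h1
      refine ⟨y, ?_⟩
      rw [← hlm η hη] at hy
      exact_mod_cast hy)
  refine ⟨lo, hi, b, fun K a => ⟨hlo K a, hhi K a⟩, hb, PP n₀, inferInstance, mm e n₀, r, s,
    mm_sub n₀, fun K => by rw [card_mm, hn₀], hs, ?_⟩
  intro ν hνlo hνhi q₀ δ hδ hns
  obtain ⟨p, hp⟩ := hlab ν hνlo hνhi q₀ (PB ν (e * (2 * s) * q₀))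
    (RC c cz J (e * (2 * s) * q₀)) (vis δ) (bad e δ)
    (fun α hα Q hQ => vis_gn δ hδ α hα Q hQ) (vis_cont δ)
    (fun j f => gb_not_bad δ hns j f) (fun ω => vis_tmpl δ hns ω)
  refine ⟨p, fun F hF hFb => ?_⟩
  have hfr : finrank ℂ (ext e cz F) = finrank ℂ F := finrank_ext hz F
  have h1 := hp (ext e cz F) (ext_le F) (by
    show 1 ≤ finrank ℂ (ext e cz F) ∧ finrank ℂ (ext e cz F) < b
    rw [hfr]
    refine ⟨?_, hFb⟩
    by_contra h
    exact hF (Submodule.finrank_eq_zero.1 (by omega)))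
  have hcor : ∀ α : Fin e ↪o Fin (e * (2 * s) * q₀), IsCor ν₀ (cor ν α) := by
    intro α
    have h2 := isCor_cor ν α
    rwa [← IsCor_congr (e := e) (ν := ν) (ν₀ := ν₀) hνlo hνhi] at h2
  have h2 : ((∑ α ∈ univ \ bad e δ, finrank ℂ (KE (tb J e)
      (Sum.elim (mm e n₀) (mC (nhi ν) (cor ν α)))
      (Sum.elim r (pos ν α (vis δ p))) (ext e cz F)) + q₀ ^ e : ℕ) : ℝ) ≤
      ∑ α : Fin e ↪o Fin (e * (2 * s) * q₀), (lm (cor ν α) : ℝ) * finrank ℂ F := by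
    have h3 : ((∑ α ∈ univ \ bad e δ, finrank ℂ (KE (tb J e)
        (Sum.elim (mm e n₀) (mC (nhi ν) (cor ν α)))
        (Sum.elim r (pos ν α (vis δ p))) (ext e cz F)) + q₀ ^ e : ℕ) : ℝ) ≤
        ((∑ α ∈ univ \ bad e δ, lm (cor ν α) * finrank ℂ (ext e cz F) : ℕ) : ℝ) := by
      exact_mod_cast h1
    refine h3.trans ?_
    rw [hfr]
    push_cast
    exact sum_le_sum_of_subset_of_nonneg (subset_univ _) fun α _ _ => by positivity
  have hb0 : (0 : ℝ) ≤ b := Nat.cast_nonneg b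
  refine (mul_le_mul_of_nonneg_right h2 hb0).trans (le_of_eq ?_)
  rw [sum_mul, mul_sum, mul_sum]
  refine sum_congr rfl fun α _ => ?_
  have h3 := lam_mul (hkap _ (hcor α)) (hA _ (hkap _ (hcor α)))
  rw [← hlm _ (hcor α), ← hb, Rat.cast_natCast] at h3
  calc (lm (cor ν α) : ℝ) * finrank ℂ F * b = finrank ℂ F * ((lm (cor ν α) : ℝ) * b) := by ring
    _ = _ := by rw [h3]

end Pool.Agent.GD.BE
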