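import Pool.Agent.H94.LP7.M62
import Pool.Agent.H94.LP7.M64

/-!
# General d, block BETA, module NumF: the sum of the virtual dimensions of the corners

PROOF.  By `mixA` (uniform constant for the finitely many `l`) the left side is `(∏ c) * (q * cz) ^ e / e ! * FR kmix univ
+ O(n ^ (e - 1))`, `q * cz = n + O(1)` (`qz`).  `kmix kb D ν S = zl kl kh L x (l K a)` for the kinds of `IsK`, `0` for the
other kinds with `rt S ≠ ∅`, `kb (lf S)` for `rt S = ∅`; `yS S` differs from it by at most `2 * w / L` on the kinds of `IsK`,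
and is the same for the others: `npt = 0` for `x ≤ 1`, `x ≥ d` (`Cls.mem`), and for `K = ∅`, `a = e` (`npt_u`), and `base`
for `rt S = ∅`.  `FR_lip`, `v_eq`.  `numV`: a bound for the virtual dimension.
-/

set_option autoImplicit false

namespace Pool.Agent.GD.BE

open Finset

private theorem npt_zero (P : Par) (he : 2 ≤ P.e) (hed : P.e < P.d) {n : ℕ} {ms : Multiset Kd}
    (h : Cls P P.J n ms) {x : ℕ} (hx : x < 2 ∨ P.d ≤ x) (A : Finset ℕ) : npt ms x A = 0 := by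
  unfold npt
  rw [Multiset.count_eq_zero]
  intro hm
  rw [Multiset.mem_bind] at hm
  obtain ⟨k, hk, hk2⟩ := hm
  have hx2 : x = k.ex := by
    cases k with
    | ord e A' =>
      rw [Kd.pts, Multiset.mem_singleton] at hk2
      exact (Prod.mk.inj hk2).1
    | cl e dl i As =>
      simp only [Kd.pts, Multiset.mem_coe, List.mem_map] at hk2
      obtain ⟨A', _, h1⟩ := hk2
      exact (Prod.mk.inj h1).1.symm
  rcases h.mem k hk with ⟨x', A', rfl, h1, h2, _⟩ | ⟨i, hi, τ, _, rfl⟩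
  · have h3 : x = x' := hx2
    omega
  · have h3 : (τ.kd P.d P.e i P.J).ex = P.e := by
      cases τ <;> rfl
    omega

section

variable {P : Par} {E : ℝ} {kl kh : ℕ → ℚ} {kb : Finset (Fin P.J) → ℚ} {cz : ℕ}
  {lo hi : Finset (Fin P.J) → ℕ → ℕ}

private theorem DD_pos (h : Dc P E kl kh kb cz lo hi) (S : Finset (Fin P.J ⊕ Fin P.e)) :
    0 < DD P.c cz S := by
  unfold DD
  refine mul_pos (Finset.prod_pos fun i _ => ?_) (pow_pos ?_ _)
  · have := h.hc i.1 i.2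
    exact_mod_cast this
  · exact_mod_cast h.hcz

private theorem nmix_div (h : Dc P E kl kh kb cz lo hi) {L : ℕ}
    {l : Finset (Fin P.J) → ℕ → ℕ} (hl : ∀ K a, l K a ≤ L) (S : Finset (Fin P.J ⊕ Fin P.e)) :
    nmix (⟨lo, hi, l, L⟩ : Nos P.J) (lf S) (rt S).card / DD P.c cz S =
      (dK P.d P.e kl (lf S) (rt S).card : ℝ) + (l (lf S) (rt S).card : ℝ) / L *
        ((dK P.d P.e kh (lf S) (rt S).card : ℝ) - dK P.d P.e kl (lf S) (rt S).card) := by
  have hD := DD_pos h S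
  have h1 : (lo (lf S) (rt S).card : ℝ) = dK P.d P.e kl (lf S) (rt S).card * DD P.c cz S := by
    have h2 := h.hlo (lf S) (rt S).card
    have h3 : ((lo (lf S) (rt S).card : ℚ) : ℝ) = ((dK P.d P.e kl (lf S) (rt S).card *
        (∏ i ∈ lf S, (P.c i : ℚ)) * (cz : ℚ) ^ (rt S).card : ℚ) : ℝ) := by rw [h2]
    push_cast at h3
    rw [h3]
    unfold DD
    ring
  have h2 : (hi (lf S) (rt S).card : ℝ) = dK P.d P.e kh (lf S) (rt S).card * DD P.c cz S := by
    have h2 := h.hhi (lf S) (rt S).card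
    have h3 : ((hi (lf S) (rt S).card : ℚ) : ℝ) = ((dK P.d P.e kh (lf S) (rt S).card *
        (∏ i ∈ lf S, (P.c i : ℚ)) * (cz : ℚ) ^ (rt S).card : ℚ) : ℝ) := by rw [h2]
    push_cast at h3
    rw [h3]
    unfold DD
    ring
  unfold nmix
  dsimp only
  rw [min_eq_left (hl _ _), h1, h2, div_eq_iff hD.ne']
  ring

private theorem kmix_rt (h : Dc P E kl kh kb cz lo hi) {L : ℕ}
    {l : Finset (Fin P.J) → ℕ → ℕ} (hl : ∀ K a, l K a ≤ L) {S : Finset (Fin P.J ⊕ Fin P.e)}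
    (hS : (rt S).Nonempty) (hK : IsK P.d P.e (lf S) (rt S).card) :
    kmix (kbR kb) (DD P.c cz) ⟨lo, hi, l, L⟩ S =
      zl kl kh L ((lf S).card + (rt S).card) (l (lf S) (rt S).card) := by
  unfold kmix
  rw [if_pos hS, nmix_div h hl S]
  unfold dK zl
  have hK' := hK
  unfold IsK at hK'
  rw [if_pos hK', if_pos hK']

private theorem kmix_rt0 (h : Dc P E kl kh kb cz lo hi) {L : ℕ}
    {l : Finset (Fin P.J) → ℕ → ℕ} (hl : ∀ K a, l K a ≤ L) {S : Finset (Fin P.J ⊕ Fin P.e)}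
    (hS : (rt S).Nonempty) (hK : ¬ IsK P.d P.e (lf S) (rt S).card) :
    kmix (kbR kb) (DD P.c cz) ⟨lo, hi, l, L⟩ S = 0 := by
  unfold kmix
  rw [if_pos hS, nmix_div h hl S]
  unfold dK
  have hK' := hK
  unfold IsK at hK'
  rw [if_neg hK', if_neg hK']
  push_cast
  ring

/-- The width. -/
private noncomputable def WW (P : Par) (kl kh : ℕ → ℚ) : ℝ :=
  ∑ x ∈ range P.d, ((kh x : ℝ) - kl x)

private theorem WW_le (h : Dc P E kl kh kb cz lo hi) {x : ℕ} (hx : x < P.d) :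
    (kh x : ℝ) - kl x ≤ WW P kl kh :=
  Finset.single_le_sum (f := fun x => (kh x : ℝ) - kl x) (fun y _ => by
    have := (h.h0 y).2
    have h2 : (kl y : ℝ) < kh y := by exact_mod_cast this
    show 0 ≤ (kh y : ℝ) - kl y
    linarith) (mem_range.2 hx)

private theorem WW_nonneg (h : Dc P E kl kh kb cz lo hi) : 0 ≤ WW P kl kh :=
  Finset.sum_nonneg fun y _ => by
    have := (h.h0 y).2
    have h2 : (kl y : ℝ) < kh y := by exact_mod_cast this
    linarith

/-- The bound. -/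
private noncomputable def BB (P : Par) (kl kh : ℕ → ℚ) (kb : Finset (Fin P.J) → ℚ) : ℝ :=
  ∑ x ∈ range P.d, |(kh x : ℝ)| + ∑ K, |(kb K : ℝ)|

private theorem kmix_bd (h : Dc P E kl kh kb cz lo hi) {L : ℕ} (hL : 0 < L)
    {l : Finset (Fin P.J) → ℕ → ℕ} (hl : ∀ K a, l K a ≤ L) (S : Finset (Fin P.J ⊕ Fin P.e)) :
    |kmix (kbR kb) (DD P.c cz) ⟨lo, hi, l, L⟩ S| ≤ BB P kl kh kb := by
  have hB0 : 0 ≤ ∑ x ∈ range P.d, |(kh x : ℝ)| := Finset.sum_nonneg fun _ _ => abs_nonneg _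
  have hB1 : 0 ≤ ∑ K : Finset (Fin P.J), |(kb K : ℝ)| := Finset.sum_nonneg fun _ _ => abs_nonneg _
  by_cases hS : (rt S).Nonempty
  · by_cases hK : IsK P.d P.e (lf S) (rt S).card
    · rw [kmix_rt h hl hS hK]
      set x := (lf S).card + (rt S).card with hx
      have hxd : x < P.d := hK.2.2.2.1
      have h1 : |(kh x : ℝ)| ≤ ∑ x ∈ range P.d, |(kh x : ℝ)| :=
        Finset.single_le_sum (f := fun x => |(kh x : ℝ)|) (fun _ _ => abs_nonneg _)
          (mem_range.2 hxd)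
      have h2 : (0 : ℝ) ≤ kl x := by exact_mod_cast (h.h0 x).1
      have h3 : (kl x : ℝ) < kh x := by exact_mod_cast (h.h0 x).2
      have hL' : (0 : ℝ) < L := by exact_mod_cast hL
      have h4 : (0 : ℝ) ≤ (l (lf S) (rt S).card : ℝ) / L := by positivity
      have h5 : (l (lf S) (rt S).card : ℝ) / L ≤ 1 := by
        rw [div_le_one hL']
        exact_mod_cast hl _ _
      have h6 : 0 ≤ zl kl kh L x (l (lf S) (rt S).card) := by
        unfold zl
        exact add_nonneg h2 (mul_nonneg h4 (by linarith))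
      have h7 : zl kl kh L x (l (lf S) (rt S).card) ≤ kh x := by
        unfold zl
        have := mul_le_mul_of_nonneg_right h5 (show (0 : ℝ) ≤ (kh x : ℝ) - kl x by linarith)
        linarith
      rw [abs_of_nonneg h6]
      unfold BB
      have h8 := le_abs_self (kh x : ℝ)
      linarith
    · rw [kmix_rt0 h hl hS hK, abs_zero]
      unfold BB
      linarith
  · unfold kmix
    rw [if_neg hS]
    unfold kbR BB
    have h1 : |(kb (lf S) : ℝ)| ≤ ∑ K : Finset (Fin P.J), |(kb K : ℝ)| :=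
      Finset.single_le_sum (f := fun K : Finset (Fin P.J) => |(kb K : ℝ)|)
        (fun _ _ => abs_nonneg _) (mem_univ _)
    linarith

private theorem kmix_yS (h : Dc P E kl kh kb cz lo hi) {L : ℕ} (hL : 0 < L) {n : ℕ}
    {ms : Multiset Kd} (hms : Ck P kb n ms)
    {l : Finset (Fin P.J) → ℕ → ℕ} (hl : LOk P kl kh L n ms l)
    (S : Finset (Fin P.J ⊕ Fin P.e)) :
    |kmix (kbR kb) (DD P.c cz) ⟨lo, hi, l, L⟩ S - yS P n ms (lf S) (rt S).card| ≤
      2 * WW P kl kh / L := by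
  have hW := WW_nonneg h
  have hL' : (0 : ℝ) < L := by exact_mod_cast hL
  have hWL : 0 ≤ WW P kl kh / L := by positivity
  have e2 : 2 * WW P kl kh / L = 2 * (WW P kl kh / L) := by ring
  by_cases hS : (rt S).Nonempty
  · have ha1 : 1 ≤ (rt S).card := hS.card_pos
    have hae : (rt S).card ≤ P.e := by
      have := Finset.card_le_univ (rt S)
      rwa [Fintype.card_fin] at this
    by_cases hK : IsK P.d P.e (lf S) (rt S).card
    · rw [kmix_rt h hl.le hS hK]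
      set x := (lf S).card + (rt S).card with hx
      have hxd : x < P.d := hK.2.2.2.1
      have h1 : ((kh x : ℝ) - kl x) / L ≤ WW P kl kh / L :=
        div_le_div_of_nonneg_right (WW_le h hxd) hL'.le
      have hy0 : 0 ≤ yS P n ms (lf S) (rt S).card := by
        unfold yS
        positivity
      rcases hl.ok _ _ hK with ⟨h2, h3, h4⟩ | ⟨h2, h3⟩
      · rw [← hx] at h2 h4
        have h5 : zl kl kh L x (l (lf S) (rt S).card) = 0 := by
          unfold zl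
          rw [h2, h3]
          push_cast
          ring
        rw [h5, zero_sub, abs_neg, abs_of_nonneg hy0, e2]
        linarith
      · rw [← hx] at h2 h3
        have h6 : 0 ≤ ((kh x : ℝ) - kl x) / L := by
          have h7 : (kl x : ℝ) < kh x := by exact_mod_cast (h.h0 x).2
          exact div_nonneg (by linarith) hL'.le
        rw [abs_sub_comm, abs_of_nonneg (by linarith), e2]
        linarith
    · rw [kmix_rt0 h hl.le hS hK]
      have h0 : npt ms ((lf S).card + (rt S).card) (range P.J \ (lf S).map Fin.valEmbedding) = 0 := by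
        by_cases hx : (lf S).card + (rt S).card < 2 ∨ P.d ≤ (lf S).card + (rt S).card
        · exact npt_zero P h.he h.hed hms.cls hx _
        · have h1 : (lf S).card = 0 ∧ (rt S).card = P.e := by
            by_contra h2
            apply hK
            refine ⟨ha1, hae, ?_, ?_, h2⟩ <;> omega
          rw [Finset.card_eq_zero.1 h1.1, h1.2, Finset.card_empty, zero_add, Finset.map_empty,
            Finset.sdiff_empty]
          exact npt_u P h.he h.hed hms.cls hms.u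
      have h1 : yS P n ms (lf S) (rt S).card = 0 := by
        unfold yS
        rw [h0]
        simp
      rw [h1, sub_zero, abs_zero, e2]
      linarith
  · have h1 : kmix (kbR kb) (DD P.c cz) ⟨lo, hi, l, L⟩ S = (kb (lf S) : ℝ) := by
      unfold kmix
      rw [if_neg hS]
      rfl
    have h2 : (rt S).card = 0 := by
      rw [Finset.card_eq_zero]
      exact Finset.not_nonempty_iff_eq_empty.1 hS
    have h3 : yS P n ms (lf S) (rt S).card = (kb (lf S) : ℝ) := by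
      have h4 := hms.base (lf S)
      have h5 : (((npt ms (lf S).card (range P.J \ (lf S).map Fin.valEmbedding) : ℕ) : ℚ) : ℝ) =
          ((kb (lf S) * ∏ i ∈ lf S, (P.c i : ℚ) : ℚ) : ℝ) := by rw [h4]
      push_cast at h5
      have h6 : (0 : ℝ) < ∏ i ∈ lf S, (P.c i : ℝ) := Finset.prod_pos fun i _ => by
        have := h.hc i.1 i.2
        exact_mod_cast this
      unfold yS
      rw [h2, add_zero, h5, Nat.factorial_zero, pow_zero, mul_one, Nat.cast_one, one_mul,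
        mul_div_assoc, div_self h6.ne', mul_one]
    rw [h1, h3, sub_self, abs_zero, e2]
    linarith

/-- A constant for all `l`. -/
private theorem mixU (P : Par) (he : 0 < P.e) (L : ℕ) (hL : 0 < L)
    (lo hi : Finset (Fin P.J) → ℕ → ℕ) (kb D : Finset (Fin P.J ⊕ Fin P.e) → ℝ) :
    ∃ C : ℝ, 0 ≤ C ∧ ∀ l : Finset (Fin P.J) → ℕ → ℕ, (∀ K a, l K a ≤ L) →
      (∀ K a, ¬ IsK P.d P.e K a → l K a = 0) → ∀ q : ℕ, L ∣ q → 1 ≤ q →
      |∑ α : Fin P.e ↪o Fin q, FR (kcor kb D (cor ⟨lo, hi, l, L⟩ α)) univ -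
        (q : ℝ) ^ P.e / P.e.factorial * FR (kmix kb D ⟨lo, hi, l, L⟩) univ| ≤
          C * (q : ℝ) ^ (P.e - 1) := by
  classical
  let xt : (Finset (Fin P.J) → Fin (P.e + 1) → Fin (L + 1)) → Finset (Fin P.J) → ℕ → ℕ :=
    fun f K a => if ha : a < P.e + 1 then (f K ⟨a, ha⟩ : ℕ) else 0
  have h1 : ∀ f : Finset (Fin P.J) → Fin (P.e + 1) → Fin (L + 1), ∃ C : ℝ, 0 ≤ C ∧
      ∀ q : ℕ, L ∣ q → 1 ≤ q →
      |∑ α : Fin P.e ↪o Fin q, FR (kcor kb D (cor ⟨lo, hi, xt f, L⟩ α)) univ -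
        (q : ℝ) ^ P.e / P.e.factorial * FR (kmix kb D ⟨lo, hi, xt f, L⟩) univ| ≤
          C * (q : ℝ) ^ (P.e - 1) := fun f => mixA he ⟨lo, hi, xt f, L⟩ hL kb D
  choose C hC0 hC using h1
  refine ⟨∑ f, C f, Finset.sum_nonneg fun f _ => hC0 f, fun l hl1 hl2 q hq hq1 => ?_⟩
  let f : Finset (Fin P.J) → Fin (P.e + 1) → Fin (L + 1) :=
    fun K a => ⟨l K a, Nat.lt_succ_of_le (hl1 K a)⟩
  have h2 : xt f = l := by
    funext K a
    show (if ha : a < P.e + 1 then (f K ⟨a, ha⟩ : ℕ) else 0) = l K a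
    split_ifs with ha
    · rfl
    · exact (hl2 K a fun hK => ha (Nat.lt_succ_of_le hK.2.1)).symm
  have h3 := hC f q hq hq1
  rw [h2] at h3
  refine h3.trans (mul_le_mul_of_nonneg_right ?_ (by positivity))
  exact Finset.single_le_sum (f := C) (fun f _ => hC0 f) (mem_univ f)

end

private theorem pow_diff (e : ℕ) (x y R : ℝ) (hx : 0 ≤ x) (hxy : x ≤ y) (hR : y - x ≤ R) :
    |x ^ e - y ^ e| ≤ e * R * y ^ (e - 1) := by
  have hy : 0 ≤ y := hx.trans hxy
  have h1 : |x ^ e - y ^ e| = y ^ e - x ^ e := by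
    rw [abs_sub_comm, abs_of_nonneg (sub_nonneg.2 (pow_le_pow_left₀ hx hxy e))]
  rw [h1]
  have h2 : y ^ e - x ^ e = (y - x) * ∑ i ∈ range e, y ^ i * x ^ (e - 1 - i) := by
    rw [mul_comm]
    exact (Commute.all y x).geom_sum₂_mul e |>.symm
  have h3 : ∑ i ∈ range e, y ^ i * x ^ (e - 1 - i) ≤ e * y ^ (e - 1) := by
    calc ∑ i ∈ range e, y ^ i * x ^ (e - 1 - i) ≤ ∑ i ∈ range e, y ^ (e - 1) := by
          refine Finset.sum_le_sum fun i hi => ?_
          have hi' := mem_range.1 hi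
          calc y ^ i * x ^ (e - 1 - i) ≤ y ^ i * y ^ (e - 1 - i) :=
                mul_le_mul_of_nonneg_left (pow_le_pow_left₀ hx hxy _) (pow_nonneg hy _)
            _ = y ^ (e - 1) := by rw [← pow_add]; congr 1; omega
      _ = e * y ^ (e - 1) := by rw [Finset.sum_const, card_range, nsmul_eq_mul]
  rw [h2]
  calc (y - x) * ∑ i ∈ range e, y ^ i * x ^ (e - 1 - i) ≤ (y - x) * (e * y ^ (e - 1)) :=
        mul_le_mul_of_nonneg_left h3 (sub_nonneg.2 hxy)
    _ ≤ R * (e * y ^ (e - 1)) :=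
        mul_le_mul_of_nonneg_right hR (mul_nonneg (Nat.cast_nonneg _) (pow_nonneg hy _))
    _ = e * R * y ^ (e - 1) := by ring

private theorem qz_bd' {e s L cz : ℕ} (he : 0 < e) (hs : 0 < s) (hL : 0 < L) (hcz : 0 < cz)
    (m : ℕ) : L ∣ e * (2 * s) * qz e s L cz m ∧ e * (2 * s) * qz e s L cz m * cz ≤ m ∧
      m < e * (2 * s) * qz e s L cz m * cz + e * (2 * s) * L * cz := by
  have hD : 0 < e * (2 * s) * L * cz := by positivity
  have h1 := Nat.div_add_mod m (e * (2 * s) * L * cz)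
  have h2 := Nat.mod_lt m hD
  have h3 : e * (2 * s) * qz e s L cz m * cz = e * (2 * s) * L * cz * (m / (e * (2 * s) * L * cz)) := by
    unfold qz
    ring
  refine ⟨?_, ?_, ?_⟩
  · unfold qz
    exact ⟨e * (2 * s) * (m / (e * (2 * s) * L * cz)), by ring⟩
  · rw [h3]
    omega
  · rw [h3]
    omega

attribute [local irreducible] FR

theorem numF (P : Par) {E : ℝ} {kl kh : ℕ → ℚ} {kb : Finset (Fin P.J) → ℚ} {cz : ℕ}
    {lo hi : Finset (Fin P.J) → ℕ → ℕ} (h : Dc P E kl kh kb cz lo hi) (s : ℕ) (hs : 0 < s)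
    (η : ℝ) (hη : 0 < η) :
    ∃ L₀ : ℕ, 0 < L₀ ∧ ∀ L, L₀ ≤ L → ∃ n₀ : ℕ, ∀ n, n₀ ≤ n →
      ∀ m, m + ∑ i ∈ range P.J, P.c i = n → ∀ ms, Ck P kb n ms → ∀ l, LOk P kl kh L n ms l →
        (∏ i ∈ range P.J, (P.c i : ℝ)) * (cz : ℝ) ^ P.e *
            ∑ α : Fin P.e ↪o Fin (P.e * (2 * s) * qz P.e s L cz m),
              FR (kcor (kbR kb) (DD P.c cz) (cor ⟨lo, hi, l, L⟩ α)) univ ≤
          P.v P.J n ms + η * (n : ℝ) ^ P.e := by
  have he0 : 0 < P.e := by have := h.he; omega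
  set Pc : ℝ := ∏ i ∈ range P.J, (P.c i : ℝ) with hPc
  have hPc0 : 0 ≤ Pc := Finset.prod_nonneg fun _ _ => Nat.cast_nonneg _
  have hF : (0 : ℝ) < P.e.factorial := by exact_mod_cast Nat.factorial_pos _
  have hW := WW_nonneg h
  have hBB : 0 ≤ BB P kl kh kb :=
    add_nonneg (Finset.sum_nonneg fun _ _ => abs_nonneg _)
      (Finset.sum_nonneg fun _ _ => abs_nonneg _)
  set B : ℝ := BB P kl kh kb + 2 * WW P kl kh with hB
  have hB0 : 0 ≤ B := by positivity
  obtain ⟨C1, hC1, hlip⟩ := FR_lip (Fin P.J ⊕ Fin P.e) B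
  obtain ⟨C2, hC2, n1, hv⟩ := v_eq P h.he h.hed h.hc
  obtain ⟨L₀, hL₀⟩ := exists_nat_ge (2 * (Pc * C1 * (2 * WW P kl kh)) / (η * P.e.factorial))
  refine ⟨L₀ + 1, Nat.succ_pos _, fun L hL => ?_⟩
  have hL1 : 0 < L := by omega
  have hLR : (0 : ℝ) < L := by exact_mod_cast hL1
  have hL2 : Pc / P.e.factorial * (C1 * (2 * WW P kl kh / L)) ≤ η / 2 := by
    have h1 : (2 * (Pc * C1 * (2 * WW P kl kh)) / (η * P.e.factorial)) ≤ L := by
      refine hL₀.trans ?_
      exact_mod_cast (by omega : L₀ ≤ L)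
    rw [div_le_iff₀ (by positivity)] at h1
    have h2 : Pc / P.e.factorial * (C1 * (2 * WW P kl kh / L)) =
        (Pc * C1 * (2 * WW P kl kh)) / (P.e.factorial * L) := by
      field_simp
    rw [h2, div_le_iff₀ (by positivity)]
    linarith only [h1]
  obtain ⟨C3, hC3, hmix⟩ := mixU P he0 L hL1 lo hi (kbR kb) (DD P.c cz)
  set R : ℕ := P.e * (2 * s) * L * cz + ∑ i ∈ range P.J, P.c i with hR
  set M : ℝ := C1 * B + |FR (fun _ : Finset (Fin P.J ⊕ Fin P.e) => (0 : ℝ)) univ| with hM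
  have hM0 : 0 ≤ M := by positivity
  set K₀ : ℝ := C2 + Pc * (cz : ℝ) ^ P.e * C3 + Pc / P.e.factorial * (P.e * R * M) with hK₀
  have hK₀0 : 0 ≤ K₀ := by positivity
  obtain ⟨n2, hn2⟩ := exists_nat_ge (2 * K₀ / η)
  refine ⟨n1 + n2 + R + 1, fun n hn m hm ms hms l hl => ?_⟩
  have hnR : (0 : ℝ) ≤ n := Nat.cast_nonneg n
  set Q := P.e * (2 * s) * qz P.e s L cz m with hQ
  obtain ⟨hq1, hq2, hq3⟩ := qz_bd' (e := P.e) (s := s) (L := L) (cz := cz) he0 hs hL1 h.hcz m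
  rw [← hQ] at hq1 hq2 hq3
  have hQ1 : 1 ≤ Q := by
    by_contra hh
    have : Q = 0 := by omega
    rw [this, zero_mul, zero_add] at hq3
    omega
  have h1 := hmix l hl.le hl.zero Q hq1 hQ1
  set X := FR (kmix (kbR kb) (DD P.c cz) ⟨lo, hi, l, L⟩) univ with hX
  set Y := FR (fun S : Finset (Fin P.J ⊕ Fin P.e) => yS P n ms (lf S) (rt S).card) univ with hY
  have hkb : ∀ S, |kmix (kbR kb) (DD P.c cz) ⟨lo, hi, l, L⟩ S| ≤ B := fun S =>
    (kmix_bd h hL1 hl.le S).trans (by linarith)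
  have hWL : 2 * WW P kl kh / L ≤ 2 * WW P kl kh :=
    div_le_self (by positivity) (by exact_mod_cast hL1)
  have hyb : ∀ S : Finset (Fin P.J ⊕ Fin P.e), |yS P n ms (lf S) (rt S).card| ≤ B := fun S => by
    have h2 := kmix_bd h hL1 hl.le S
    have h3 := kmix_yS h hL1 hms hl S
    have h4 : |yS P n ms (lf S) (rt S).card| ≤
        |kmix (kbR kb) (DD P.c cz) ⟨lo, hi, l, L⟩ S| +
        |kmix (kbR kb) (DD P.c cz) ⟨lo, hi, l, L⟩ S - yS P n ms (lf S) (rt S).card| := by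
      have h5 := abs_sub (kmix (kbR kb) (DD P.c cz) ⟨lo, hi, l, L⟩ S)
        (kmix (kbR kb) (DD P.c cz) ⟨lo, hi, l, L⟩ S - yS P n ms (lf S) (rt S).card)
      rwa [sub_sub_cancel] at h5
    linarith
  have h2 : |X - Y| ≤ C1 * (2 * WW P kl kh / L) :=
    hlip _ _ _ hkb hyb (fun S _ => kmix_yS h hL1 hms hl S) univ
  have h3 : |X| ≤ M := by
    have h4 := hlip _ (fun _ => 0) B hkb (fun _ => by rw [abs_zero]; exact hB0)
      (fun S _ => by rw [sub_zero]; exact hkb S) univ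
    have h5 : |X| ≤ |X - FR (fun _ : Finset (Fin P.J ⊕ Fin P.e) => (0 : ℝ)) univ| +
        |FR (fun _ : Finset (Fin P.J ⊕ Fin P.e) => (0 : ℝ)) univ| := by
      have h6 := abs_add_le (X - FR (fun _ : Finset (Fin P.J ⊕ Fin P.e) => (0 : ℝ)) univ)
        (FR (fun _ : Finset (Fin P.J ⊕ Fin P.e) => (0 : ℝ)) univ)
      rwa [sub_add_cancel] at h6
    rw [hM]
    linarith
  have h4 := hv n (by omega) ms hms.cls hms.u
  have hQn : (cz : ℝ) * Q ≤ n := by
    have : Q * cz ≤ n := by omega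
    rw [mul_comm]
    exact_mod_cast this
  have hQn1 : (Q : ℝ) ≤ n := by
    have h5 : (1 : ℝ) ≤ cz := by exact_mod_cast h.hcz
    have h6 : (0 : ℝ) ≤ Q := Nat.cast_nonneg _
    linarith only [hQn, mul_le_mul_of_nonneg_right h5 h6]
  have hnQ : (n : ℝ) - cz * Q ≤ R := by
    have h5 : n ≤ Q * cz + R := by omega
    have h6 : (n : ℝ) ≤ Q * cz + R := by exact_mod_cast h5
    linarith
  have h5 := pow_diff P.e ((cz : ℝ) * Q) n R (by positivity) hQn hnQ
  have hn1 : (0 : ℝ) ≤ (n : ℝ) ^ (P.e - 1) := by positivity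
  -- the chain of inequalities
  have s1 : ∑ α : Fin P.e ↪o Fin Q, FR (kcor (kbR kb) (DD P.c cz) (cor ⟨lo, hi, l, L⟩ α)) univ ≤
      (Q : ℝ) ^ P.e / P.e.factorial * X + C3 * (n : ℝ) ^ (P.e - 1) := by
    have h6 := (abs_le.1 h1).2
    have h7 : C3 * (Q : ℝ) ^ (P.e - 1) ≤ C3 * (n : ℝ) ^ (P.e - 1) :=
      mul_le_mul_of_nonneg_left (pow_le_pow_left₀ (Nat.cast_nonneg _) hQn1 _) hC3
    linarith
  have s2 : ((cz : ℝ) * Q) ^ P.e * X ≤ (n : ℝ) ^ P.e * X + P.e * R * M * (n : ℝ) ^ (P.e - 1) := by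
    have h6 : (((cz : ℝ) * Q) ^ P.e - (n : ℝ) ^ P.e) * X ≤
        (P.e * R * (n : ℝ) ^ (P.e - 1)) * M := by
      refine (le_abs_self _).trans ?_
      rw [abs_mul]
      exact mul_le_mul h5 h3 (abs_nonneg _) (by positivity)
    linarith only [h6]
  have s3 : Pc * (n : ℝ) ^ P.e / P.e.factorial * X ≤
      Pc * (n : ℝ) ^ P.e / P.e.factorial * Y + η / 2 * (n : ℝ) ^ P.e := by
    have h6 := (abs_le.1 h2).2
    have h7 : X ≤ Y + C1 * (2 * WW P kl kh / L) := by linarith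
    have h8 := mul_le_mul_of_nonneg_left h7
      (show 0 ≤ Pc * (n : ℝ) ^ P.e / P.e.factorial by positivity)
    have h9 := mul_le_mul_of_nonneg_right hL2 (show (0 : ℝ) ≤ (n : ℝ) ^ P.e by positivity)
    have h10 : Pc * (n : ℝ) ^ P.e / P.e.factorial * (Y + C1 * (2 * WW P kl kh / L)) =
        Pc * (n : ℝ) ^ P.e / P.e.factorial * Y +
          Pc / P.e.factorial * (C1 * (2 * WW P kl kh / L)) * (n : ℝ) ^ P.e := by
      ring
    linarith
  have s4 : Pc * (n : ℝ) ^ P.e / P.e.factorial * Y ≤ P.v P.J n ms + C2 * (n : ℝ) ^ (P.e - 1) := by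
    have h6 := (abs_le.1 h4).1
    linarith
  have s5 : K₀ * (n : ℝ) ^ (P.e - 1) ≤ η / 2 * (n : ℝ) ^ P.e := by
    have h6 : 2 * K₀ / η ≤ n := hn2.trans (by exact_mod_cast (by omega : n2 ≤ n))
    rw [div_le_iff₀ hη] at h6
    have h7 : (n : ℝ) ^ P.e = n * (n : ℝ) ^ (P.e - 1) := by
      rw [← pow_succ']
      congr 1
      omega
    rw [h7]
    linarith only [mul_le_mul_of_nonneg_right h6 hn1]
  have s6 : Pc * (cz : ℝ) ^ P.e * ((Q : ℝ) ^ P.e / P.e.factorial * X) =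
      Pc / P.e.factorial * (((cz : ℝ) * Q) ^ P.e * X) := by
    rw [mul_pow]
    ring
  have s7 := mul_le_mul_of_nonneg_left s1 (show 0 ≤ Pc * (cz : ℝ) ^ P.e by positivity)
  have s8 := mul_le_mul_of_nonneg_left s2 (show 0 ≤ Pc / P.e.factorial by positivity)
  have s9 : Pc / P.e.factorial * ((n : ℝ) ^ P.e * X) = Pc * (n : ℝ) ^ P.e / P.e.factorial * X := by
    ring
  rw [hK₀] at s5
  linarith only [s3, s4, s5, s6, s7, s8, s9]

theorem numV (P : Par) {E : ℝ} {kl kh : ℕ → ℚ} {kb : Finset (Fin P.J) → ℚ} {cz : ℕ}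
    {lo hi : Finset (Fin P.J) → ℕ → ℕ} (h : Dc P E kl kh kb cz lo hi) :
    ∃ V : ℝ, 0 ≤ V ∧ ∃ n₀ : ℕ, ∀ n, n₀ ≤ n → ∀ ms, Ck P kb n ms →
      (P.v P.J n ms : ℝ) ≤ V * (n : ℝ) ^ P.e := by
  set Pc : ℝ := ∏ i ∈ range P.J, (P.c i : ℝ) with hPc
  have hPc0 : 0 ≤ Pc := Finset.prod_nonneg fun _ _ => Nat.cast_nonneg _
  have hF : (0 : ℝ) < P.e.factorial := by exact_mod_cast Nat.factorial_pos _
  have hW := WW_nonneg h
  have hBB : 0 ≤ BB P kl kh kb :=
    add_nonneg (Finset.sum_nonneg fun _ _ => abs_nonneg _)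
      (Finset.sum_nonneg fun _ _ => abs_nonneg _)
  set B : ℝ := BB P kl kh kb + 2 * WW P kl kh with hB
  have hB0 : 0 ≤ B := by positivity
  obtain ⟨C1, hC1, hlip⟩ := FR_lip (Fin P.J ⊕ Fin P.e) B
  obtain ⟨C2, hC2, n1, hv⟩ := v_eq P h.he h.hed h.hc
  obtain ⟨L, hL, hl⟩ := lch P h
  set M : ℝ := C1 * B + |FR (fun _ : Finset (Fin P.J ⊕ Fin P.e) => (0 : ℝ)) univ| with hM
  have hM0 : 0 ≤ M := by positivity
  refine ⟨Pc / P.e.factorial * M + C2, by positivity, n1 + 1, fun n hn ms hms => ?_⟩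
  obtain ⟨l, hl⟩ := hl L le_rfl n (by omega) ms hms.cls
  set Y := FR (fun S : Finset (Fin P.J ⊕ Fin P.e) => yS P n ms (lf S) (rt S).card) univ with hY
  have hWL : 2 * WW P kl kh / L ≤ 2 * WW P kl kh :=
    div_le_self (by positivity) (by exact_mod_cast hL)
  have hyb : ∀ S : Finset (Fin P.J ⊕ Fin P.e), |yS P n ms (lf S) (rt S).card| ≤ B := fun S => by
    have h2 := kmix_bd h hL hl.le S
    have h3 := kmix_yS h hL hms hl S
    have h4 : |yS P n ms (lf S) (rt S).card| ≤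
        |kmix (kbR kb) (DD P.c cz) ⟨lo, hi, l, L⟩ S| +
        |kmix (kbR kb) (DD P.c cz) ⟨lo, hi, l, L⟩ S - yS P n ms (lf S) (rt S).card| := by
      have h5 := abs_sub (kmix (kbR kb) (DD P.c cz) ⟨lo, hi, l, L⟩ S)
        (kmix (kbR kb) (DD P.c cz) ⟨lo, hi, l, L⟩ S - yS P n ms (lf S) (rt S).card)
      rwa [sub_sub_cancel] at h5
    linarith
  have h3 : |Y| ≤ M := by
    have h4 := hlip _ (fun _ => 0) B hyb (fun _ => by rw [abs_zero]; exact hB0)
      (fun S _ => by rw [sub_zero]; exact hyb S) univ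
    have h5 : |Y| ≤ |Y - FR (fun _ : Finset (Fin P.J ⊕ Fin P.e) => (0 : ℝ)) univ| +
        |FR (fun _ : Finset (Fin P.J ⊕ Fin P.e) => (0 : ℝ)) univ| := by
      have h6 := abs_add_le (Y - FR (fun _ : Finset (Fin P.J ⊕ Fin P.e) => (0 : ℝ)) univ)
        (FR (fun _ : Finset (Fin P.J ⊕ Fin P.e) => (0 : ℝ)) univ)
      rwa [sub_add_cancel] at h6
    rw [hM]
    linarith
  have h4 := (abs_le.1 (hv n (by omega) ms hms.cls hms.u)).2
  have hn1 : (1 : ℝ) ≤ n := by exact_mod_cast (by omega : 1 ≤ n)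
  have h6 : (n : ℝ) ^ (P.e - 1) ≤ (n : ℝ) ^ P.e := pow_le_pow_right₀ hn1 (Nat.sub_le _ _)
  have h7 : C2 * (n : ℝ) ^ (P.e - 1) ≤ C2 * (n : ℝ) ^ P.e := mul_le_mul_of_nonneg_left h6 hC2
  have h8 : Pc * (n : ℝ) ^ P.e / P.e.factorial * Y ≤ Pc * (n : ℝ) ^ P.e / P.e.factorial * M :=
    mul_le_mul_of_nonneg_left ((le_abs_self _).trans h3) (by positivity)
  have h9 : Pc * (n : ℝ) ^ P.e / P.e.factorial * M + C2 * (n : ℝ) ^ P.e =
      (Pc / P.e.factorial * M + C2) * (n : ℝ) ^ P.e := by ring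
  linarith

end Pool.Agent.GD.BE
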